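import Pool.Agent.EFX.Assemble
import Pool.Agent.EFX.LL

set_option autoImplicit false

/-!
# The exact value of `A_r(n)` for all `r ≥ 10^7` and all `n ≥ r`
-/

namespace Pool.Agent.Results.MP_64e56f_co.AllLargeR

open Pool.Agent.EFX

/-- For every `r ≥ 10^7` and every `n ≥ r` the largest family of graphs on `n` labelled vertices in
which the symmetric difference of any two distinct members has an independent set of size `r` has
exactly `2^(C(n,2) - C(r,2))` members. -/
theorem result : ∀ r n : ℕ, 10000000 ≤ r → r ≤ n →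
    (∀ F : Finset (SimpleGraph (Fin n)),
      (∀ G ∈ F, ∀ H ∈ F, G ≠ H → ∃ s : Finset (Fin n), (symmDiff G H).IsNIndepSet r s) →
      F.card ≤ 2 ^ (n.choose 2 - r.choose 2)) ∧
    (∃ F : Finset (SimpleGraph (Fin n)),
      (∀ G ∈ F, ∀ H ∈ F, G ≠ H → ∃ s : Finset (Fin n), (symmDiff G H).IsNIndepSet r s) ∧
      F.card = 2 ^ (n.choose 2 - r.choose 2)) := by
  have hLL : T_LL := p_LL p_HELB t_CARD t_CUT t_CYL t_GP p_QD p_VARI p_CC t_FAR
  have hDL : T_DL := p_DL t_CARD p_SUMN t_LONE hLL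
  have hSTEPA : T_STEPA := p_STEPA p_VAL t_CARD t_CYL t_CONF t_PIECE
  have hBDS : T_BDS := p_BDS p_HELB t_CARD t_CUT t_CYL t_GP t_AVG hDL hSTEPA t_FRAC
  have hMAIN : T_MAIN := p_MAIN p_SUMN t_BDB hBDS
  exact p_FINX t_CARD p_VAL t_BASE hMAIN p_NUMX

end Pool.Agent.Results.MP_64e56f_co.AllLargeR
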