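import Mathlib

set_option autoImplicit false

namespace Pool.Agent.Results.MP_64e56f_co.AllN

open Finset

open scoped Classical

/-- The pairs (2-element subsets) of `Fin n`. -/
abbrev Ed (n : ℕ) := {e : Finset (Fin n) // e.card = 2}

variable {n : ℕ}

section Shearer

/-- AM-GM without weights. -/
lemma amgm {ι : Type*} (I : Finset ι) (z : ι → ℝ) (hI : 0 < I.card) (hz : ∀ i ∈ I, 0 ≤ z i) :
    ∏ i ∈ I, z i ≤ ((∑ i ∈ I, z i) / I.card) ^ I.card := by
  have h := Real.geom_mean_le_arith_mean I (fun _ => (1 : ℝ)) z (fun _ _ => zero_le_one)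
    (by simpa using hI) hz
  simp only [Real.rpow_one, sum_const, nsmul_eq_mul, mul_one, one_mul] at h
  have hp : 0 ≤ ∏ i ∈ I, z i := prod_nonneg hz
  have h2 := pow_le_pow_left₀ (Real.rpow_nonneg hp _) h I.card
  rwa [Real.rpow_inv_natCast_pow hp hI.ne'] at h2

lemma numeric {ι : Type*} [Fintype ι] (I : Finset ι) (hI : 0 < I.card) (x0 x1 : ℝ)
    (p0 p1 P : ι → ℝ) (hx0 : 0 ≤ x0) (hx1 : 0 ≤ x1) (hx : 0 < x0 + x1)
    (h0 : ∀ i, 0 ≤ p0 i) (h1 : ∀ i, 0 ≤ p1 i) (hP : ∀ i, 0 < P i)
    (hin : ∀ i ∈ I, p0 i + p1 i ≤ P i) (hout : ∀ i ∉ I, p0 i ≤ P i ∧ p1 i ≤ P i)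
    (hX0 : x0 ^ I.card ≤ ∏ i, p0 i) (hX1 : x1 ^ I.card ≤ ∏ i, p1 i) :
    (x0 + x1) ^ I.card ≤ ∏ i, P i := by
  have key : ∀ p : ι → ℝ, (∀ i, 0 ≤ p i) → (∀ i ∉ I, p i ≤ P i) →
      ∏ i, p i ≤ ((∑ i ∈ I, p i / P i) / I.card) ^ I.card * ∏ i, P i := by
    intro p hp hpo
    rw [← prod_mul_prod_compl I p, ← prod_mul_prod_compl I P]
    have e1 : ∏ i ∈ I, p i = (∏ i ∈ I, p i / P i) * ∏ i ∈ I, P i := by
      rw [← prod_mul_distrib]
      apply prod_congr rfl
      intro i _
      rw [div_mul_cancel₀ _ (hP i).ne']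
    have e2 : ∏ i ∈ Iᶜ, p i ≤ ∏ i ∈ Iᶜ, P i :=
      prod_le_prod (fun i _ => hp i) (fun i hi => hpo i (mem_compl.1 hi))
    have e3 := amgm I (fun i => p i / P i) hI (fun i _ => div_nonneg (hp i) (hP i).le)
    have e4 : 0 ≤ ∏ i ∈ I, P i := prod_nonneg (fun i _ => (hP i).le)
    have e5 : 0 ≤ ∏ i ∈ Iᶜ, p i := prod_nonneg (fun i _ => hp i)
    have e6 : 0 ≤ ∏ i ∈ I, p i / P i := prod_nonneg (fun i _ => div_nonneg (hp i) (hP i).le)
    rw [e1]
    calc (∏ i ∈ I, p i / P i) * (∏ i ∈ I, P i) * ∏ i ∈ Iᶜ, p i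
        ≤ (∏ i ∈ I, p i / P i) * (∏ i ∈ I, P i) * ∏ i ∈ Iᶜ, P i :=
          mul_le_mul_of_nonneg_left e2 (mul_nonneg e6 e4)
      _ = (∏ i ∈ I, p i / P i) * ((∏ i ∈ I, P i) * ∏ i ∈ Iᶜ, P i) := by ring
      _ ≤ _ := mul_le_mul_of_nonneg_right e3
          (mul_nonneg e4 (prod_nonneg (fun i _ => (hP i).le)))
  by_contra hcon
  rw [not_le] at hcon
  have hc : (0 : ℝ) < I.card := by exact_mod_cast hI
  obtain ⟨u0, hu0⟩ : ∃ u, u = (∑ i ∈ I, p0 i / P i) / I.card := ⟨_, rfl⟩
  obtain ⟨u1, hu1⟩ : ∃ u, u = (∑ i ∈ I, p1 i / P i) / I.card := ⟨_, rfl⟩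
  have hu0n : 0 ≤ u0 := by
    rw [hu0]
    exact div_nonneg (sum_nonneg (fun i _ => div_nonneg (h0 i) (hP i).le)) hc.le
  have hu1n : 0 ≤ u1 := by
    rw [hu1]
    exact div_nonneg (sum_nonneg (fun i _ => div_nonneg (h1 i) (hP i).le)) hc.le
  have hsum : u0 + u1 ≤ 1 := by
    rw [hu0, hu1, ← add_div, ← sum_add_distrib, div_le_one hc]
    calc ∑ i ∈ I, (p0 i / P i + p1 i / P i) ≤ ∑ i ∈ I, (1 : ℝ) := by
          apply sum_le_sum
          intro i hi
          rw [← add_div, div_le_one (hP i)]
          exact hin i hi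
      _ = I.card := by simp
  have hPpos : 0 < ∏ i, P i := prod_pos (fun i _ => hP i)
  have k0 := key p0 h0 (fun i hi => (hout i hi).1)
  have k1 := key p1 h1 (fun i hi => (hout i hi).2)
  rw [← hu0] at k0
  rw [← hu1] at k1
  have gen : ∀ x u : ℝ, 0 ≤ x → 0 ≤ u → x ^ I.card ≤ u ^ I.card * ∏ i, P i →
      x ≤ u * (x0 + x1) ∧ (0 < u → x < u * (x0 + x1)) := by
    intro x u hx' hu' hle
    constructor
    · apply le_of_pow_le_pow_left₀ hI.ne' (by positivity)
      rw [mul_pow]
      exact hle.trans (mul_le_mul_of_nonneg_left hcon.le (pow_nonneg hu' _))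
    · intro hupos
      apply lt_of_pow_lt_pow_left₀ I.card (by positivity)
      rw [mul_pow]
      exact hle.trans_lt (mul_lt_mul_of_pos_left hcon (pow_pos hupos _))
  have g0 := gen x0 u0 hx0 hu0n (hX0.trans k0)
  have g1 := gen x1 u1 hx1 hu1n (hX1.trans k1)
  rcases eq_or_lt_of_le hu0n with hz | hpos
  · rcases eq_or_lt_of_le hu1n with hz1 | hpos1
    · have a := g0.1
      have b := g1.1
      rw [← hz] at a
      rw [← hz1] at b
      linarith
    · have a := g0.1
      have b := g1.2 hpos1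
      nlinarith
  · have a := g0.2 hpos
    have b := g1.1
    nlinarith


/-- restriction of a function to `T` (zero outside `T`) -/
noncomputable def res (T : Finset (Ed n)) (f : Ed n → Bool) : Ed n → Bool :=
  fun e => if e ∈ T then f e else false

lemma res_apply_of_mem {T : Finset (Ed n)} {f : Ed n → Bool} {e : Ed n} (h : e ∈ T) : res T f e = f e := by
  simp [res, h]

lemma res_apply_of_notMem {T : Finset (Ed n)} {f : Ed n → Bool} {e : Ed n} (h : e ∉ T) :
    res T f e = false := by
  simp [res, h]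

/-- all members vanish outside `D` -/
def Supp (D : Finset (Ed n)) (F : Finset (Ed n → Bool)) : Prop := ∀ f ∈ F, ∀ e, e ∉ D → f e = false

lemma supp_image_res (T : Finset (Ed n)) (F : Finset (Ed n → Bool)) : Supp T (F.image (res T)) := by
  intro f hf e he
  obtain ⟨g, _, rfl⟩ := mem_image.1 hf
  exact res_apply_of_notMem he

lemma card_le_of_supp {D : Finset (Ed n)} {F : Finset (Ed n → Bool)} (h : Supp D F) :
    F.card ≤ 2 ^ D.card := by
  have h2 : F ⊆ (Fintype.piFinset (fun e => if e ∈ D then (univ : Finset Bool) else {false})) := by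
    intro f hf
    rw [Fintype.mem_piFinset]
    intro e
    by_cases he : e ∈ D
    · simp [he]
    · simp [he, h f hf e he]
  refine (card_le_card h2).trans ?_
  rw [Fintype.card_piFinset]
  have h3 : ∀ e : Ed n, (if e ∈ D then (univ : Finset Bool) else {false}).card
      = if e ∈ D then 2 else 1 := by
    intro e
    split_ifs <;> simp
  simp only [h3]
  rw [prod_ite]
  simp

/-- Shearer's lemma (counting form, for 0/1 functions on a finite set). -/
theorem shearer {ι : Type} [Fintype ι] (k : ℕ) (hk : 0 < k) (T : ι → Finset (Ed n)) (D : Finset (Ed n)) :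
    (∀ e ∈ D, ∃ I : Finset ι, I.card = k ∧ ∀ i, i ∈ I ↔ e ∈ T i) →
    ∀ F : Finset (Ed n → Bool), Supp D F → F.card ^ k ≤ ∏ i, (F.image (res (T i))).card := by
  induction D using Finset.induction_on with
  | empty =>
    intro _ F hF
    rcases F.eq_empty_or_nonempty with h | h
    · rw [h, card_empty, zero_pow hk.ne']; exact Nat.zero_le _
    · have h1 : F.card ≤ 1 := by simpa using card_le_of_supp hF
      have h2 : F.card ^ k ≤ 1 := by
        calc F.card ^ k ≤ 1 ^ k := Nat.pow_le_pow_left h1 k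
          _ = 1 := one_pow k
      refine h2.trans (Nat.one_le_iff_ne_zero.2 ?_)
      rw [prod_ne_zero_iff]
      intro i _
      exact (card_pos.2 (h.image _)).ne'
  | insert a D ha ih =>
    intro hcount F hF
    have ih' := ih (fun e he => hcount e (mem_insert_of_mem he))
    obtain ⟨I, hIa, hIm⟩ := hcount a (mem_insert_self a D)
    rcases F.eq_empty_or_nonempty with h | hne
    · rw [h, card_empty, zero_pow hk.ne']; exact Nat.zero_le _
    obtain ⟨er, her⟩ : ∃ er : (Ed n → Bool) → (Ed n → Bool),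
        er = fun f e => if e = a then false else f e := ⟨_, rfl⟩
    have er_a : ∀ f, er f a = false := by intro f; rw [her]; simp
    have er_ne : ∀ f e, e ≠ a → er f e = f e := by intro f e he; rw [her]; simp [he]
    obtain ⟨F0, hF0⟩ : ∃ F0, F0 = F.filter (fun f => f a = false) := ⟨_, rfl⟩
    obtain ⟨F1, hF1⟩ : ∃ F1, F1 = F.filter (fun f => ¬ f a = false) := ⟨_, rfl⟩
    have hcard : F0.card + F1.card = F.card := by
      rw [hF0, hF1]; exact card_filter_add_card_filter_not _
    have hinj : Set.InjOn er (F1 : Set (Ed n → Bool)) := by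
      intro f hf g hg hfg
      rw [hF1, mem_coe, mem_filter] at hf hg
      funext e
      by_cases he : e = a
      · rw [he]
        have h1 : f a = true := by simpa using hf.2
        have h2 : g a = true := by simpa using hg.2
        rw [h1, h2]
      · rw [← er_ne f e he, ← er_ne g e he, hfg]
    have hsupp0 : Supp D F0 := by
      intro f hf e he
      rw [hF0, mem_filter] at hf
      by_cases hea : e = a
      · rw [hea]; exact hf.2
      · exact hF f hf.1 e (by simp [hea, he])
    have hsupp1 : Supp D (F1.image er) := by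
      intro f hf e he
      obtain ⟨g, hg, rfl⟩ := mem_image.1 hf
      rw [hF1, mem_filter] at hg
      by_cases hea : e = a
      · rw [hea]; exact er_a g
      · rw [er_ne g e hea]
        exact hF g hg.1 e (by simp [hea, he])
    have i0 := ih' F0 hsupp0
    have i1 := ih' (F1.image er) hsupp1
    rw [card_image_of_injOn hinj] at i1
    have hres_in : ∀ i, a ∈ T i → ∀ f, res (T i) (er f) = er (res (T i) f) := by
      intro i hi f
      funext e
      by_cases he : e = a
      · rw [he, er_a, res_apply_of_mem hi, er_a]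
      · rw [er_ne _ e he]
        by_cases heT : e ∈ T i
        · rw [res_apply_of_mem heT, res_apply_of_mem heT, er_ne _ e he]
        · rw [res_apply_of_notMem heT, res_apply_of_notMem heT]
    have hres_out : ∀ i, a ∉ T i → ∀ f, res (T i) (er f) = res (T i) f := by
      intro i hi f
      funext e
      by_cases heT : e ∈ T i
      · have he : e ≠ a := fun h => hi (h ▸ heT)
        rw [res_apply_of_mem heT, res_apply_of_mem heT, er_ne _ e he]
      · rw [res_apply_of_notMem heT, res_apply_of_notMem heT]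
    have main := numeric I (by rw [hIa]; exact hk)
      (F0.card : ℝ) (F1.card : ℝ) (fun i => ((F0.image (res (T i))).card : ℝ))
      (fun i => (((F1.image er).image (res (T i))).card : ℝ))
      (fun i => ((F.image (res (T i))).card : ℝ)) (by positivity) (by positivity)
      (by
        have := card_pos.2 hne
        rw [← hcard] at this
        exact_mod_cast this)
      (fun i => by positivity) (fun i => by positivity)
      (fun i => by
        have := card_pos.2 (hne.image (res (T i)))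
        exact_mod_cast this)
      (by
        intro i hi
        have haT := (hIm i).1 hi
        have e1 : (F1.image er).image (res (T i)) = (F1.image (res (T i))).image er := by
          rw [image_image, image_image]
          apply image_congr
          intro f _
          exact hres_in i haT f
        have e2 : ((F1.image er).image (res (T i))).card ≤ (F1.image (res (T i))).card := by
          rw [e1]; exact card_image_le
        have e3 : Disjoint (F0.image (res (T i))) (F1.image (res (T i))) := by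
          rw [disjoint_left]
          intro f hf0 hf1
          obtain ⟨g, hg, rfl⟩ := mem_image.1 hf0
          obtain ⟨h, hh, hgh⟩ := mem_image.1 hf1
          rw [hF0, mem_filter] at hg
          rw [hF1, mem_filter] at hh
          have := congrFun hgh a
          rw [res_apply_of_mem haT, res_apply_of_mem haT] at this
          exact hh.2 (this.trans hg.2)
        have e4 : (F0.image (res (T i))) ∪ (F1.image (res (T i))) ⊆ F.image (res (T i)) := by
          apply union_subset
          · apply image_subset_image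
            rw [hF0]; exact filter_subset _ _
          · apply image_subset_image
            rw [hF1]; exact filter_subset _ _
        have e5 := card_le_card e4
        rw [card_union_of_disjoint e3] at e5
        have e6 : (F0.image (res (T i))).card + ((F1.image er).image (res (T i))).card
            ≤ (F.image (res (T i))).card := by omega
        exact_mod_cast e6)
      (by
        intro i hi
        have haT : a ∉ T i := fun h => hi ((hIm i).2 h)
        constructor
        · have : (F0.image (res (T i))).card ≤ (F.image (res (T i))).card := by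
            apply card_le_card
            apply image_subset_image
            rw [hF0]; exact filter_subset _ _
          exact_mod_cast this
        · have : ((F1.image er).image (res (T i))).card ≤ (F.image (res (T i))).card := by
            apply card_le_card
            rw [image_image]
            intro f hf
            obtain ⟨g, hg, rfl⟩ := mem_image.1 hf
            rw [Function.comp_apply, hres_out i haT]
            apply mem_image_of_mem
            rw [hF1, mem_filter] at hg
            exact hg.1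
          exact_mod_cast this)
      (by rw [hIa]; exact_mod_cast i0) (by rw [hIa]; exact_mod_cast i1)
    rw [hIa] at main
    rw [← hcard]
    exact_mod_cast main

end Shearer

section Count

/-- the number of pairs `(a, b)` in `[1, 2^m]^2` with `a b 2^e ≤ 4^m` is at most
`(e+1) 4^m / 2^e` -/
lemma count_pairs (m : ℕ) : ∀ e : ℕ,
    ((Icc 1 (2 ^ m) ×ˢ Icc 1 (2 ^ m)).filter (fun p => p.1 * p.2 * 2 ^ e ≤ 4 ^ m)).card * 2 ^ e
      ≤ (e + 1) * 4 ^ m := by
  intro e
  induction e with
  | zero =>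
    have h1 := card_filter_le (Icc 1 (2 ^ m) ×ˢ Icc 1 (2 ^ m))
      (fun p : ℕ × ℕ => p.1 * p.2 * 2 ^ 0 ≤ 4 ^ m)
    rw [card_product, Nat.card_Icc, Nat.add_sub_cancel] at h1
    have h4 : 4 ^ m = 2 ^ m * 2 ^ m := by
      rw [← mul_pow]; norm_num
    simp only [pow_zero, mul_one, zero_add, one_mul] at h1 ⊢
    rw [h4] at h1 ⊢
    exact h1
  | succ e ih =>
    have h4 : 4 ^ m = 2 ^ m * 2 ^ m := by
      rw [← mul_pow]; norm_num
    obtain ⟨N, hN⟩ : ∃ N, N = (Icc 1 (2 ^ m) ×ˢ Icc 1 (2 ^ m)).filter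
      (fun p : ℕ × ℕ => p.1 * p.2 * 2 ^ (e + 1) ≤ 4 ^ m) := ⟨_, rfl⟩
    obtain ⟨N', hN'⟩ : ∃ N', N' = (Icc 1 (2 ^ m) ×ˢ Icc 1 (2 ^ m)).filter
      (fun p : ℕ × ℕ => p.1 * p.2 * 2 ^ e ≤ 4 ^ m) := ⟨_, rfl⟩
    rw [← hN'] at ih
    rw [← hN]
    obtain ⟨S, hS⟩ : ∃ S, S = N.filter (fun p => 2 * p.1 ≤ 2 ^ m) := ⟨_, rfl⟩
    obtain ⟨B, hB⟩ : ∃ B, B = N.filter (fun p => ¬ 2 * p.1 ≤ 2 ^ m) := ⟨_, rfl⟩
    have hSB : S.card + B.card = N.card := by
      rw [hS, hB]; exact card_filter_add_card_filter_not _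
    have hSmall : S.card * 2 ≤ N'.card := by
      have h2 : (S ×ˢ (range 2)).card = S.card * 2 := by
        rw [card_product, card_range]
      rw [← h2]
      apply card_le_card_of_injOn (fun q => (2 * q.1.1 - q.2, q.1.2))
      · rintro ⟨⟨a, b⟩, t⟩ hq
        rw [mem_coe, mem_product, hS, mem_filter, hN, mem_filter, mem_product, mem_Icc,
          mem_Icc, mem_range] at hq
        obtain ⟨⟨⟨⟨⟨ha1, ha2⟩, hb⟩, hab⟩, h2a⟩, ht⟩ := hq
        simp only at ha1 ha2 hb hab h2a ht ⊢
        rw [hN', mem_coe, mem_filter, mem_product, mem_Icc, mem_Icc]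
        refine ⟨⟨⟨by simp only; omega, by simp only; omega⟩, hb⟩, ?_⟩
        simp only
        calc (2 * a - t) * b * 2 ^ e ≤ (2 * a) * b * 2 ^ e := by
              apply Nat.mul_le_mul_right
              apply Nat.mul_le_mul_right
              omega
          _ = a * b * 2 ^ (e + 1) := by rw [pow_succ]; ring
          _ ≤ 4 ^ m := hab
      · rintro ⟨⟨a, b⟩, t⟩ hq ⟨⟨a', b'⟩, t'⟩ hq' heq
        rw [mem_coe, mem_product, hS, mem_filter, hN, mem_filter, mem_product, mem_Icc,
          mem_Icc, mem_range] at hq hq'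
        simp only [Prod.mk.injEq] at heq hq hq' ⊢
        omega
    have hBig : B.card * 2 ^ (e + 1) ≤ 4 ^ m := by
      -- B ⊆ {2^m < 2a ≤ 2·2^m} × {b : b 2^e < 2^m}
      have hsub : B ⊆ (Icc 1 (2 ^ m)).filter (fun a => ¬ 2 * a ≤ 2 ^ m) ×ˢ
          (Icc 1 ((2 ^ m - 1) / 2 ^ e)) := by
        rintro ⟨a, b⟩ hq
        rw [hB, mem_filter, hN, mem_filter, mem_product, mem_Icc, mem_Icc] at hq
        obtain ⟨⟨⟨⟨ha1, ha2⟩, ⟨hb1, hb2⟩⟩, hab⟩, h2a⟩ := hq
        simp only at ha1 ha2 hb1 hb2 hab h2a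
        rw [mem_product, mem_filter, mem_Icc, mem_Icc]
        refine ⟨⟨⟨ha1, ha2⟩, h2a⟩, hb1, ?_⟩
        simp only
        rw [Nat.le_div_iff_mul_le (by positivity)]
        apply Nat.le_sub_one_of_lt
        by_contra hcon
        rw [not_lt] at hcon
        rw [not_le] at h2a
        have h5 : 2 ^ m * 2 ^ m < 2 * a * (b * 2 ^ e) := by
          have hpos : 0 < b * 2 ^ e := by positivity
          calc 2 ^ m * 2 ^ m ≤ 2 ^ m * (b * 2 ^ e) := Nat.mul_le_mul_left _ hcon
            _ < 2 * a * (b * 2 ^ e) := Nat.mul_lt_mul_of_pos_right h2a hpos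
        have h6 : 2 * a * (b * 2 ^ e) = a * b * 2 ^ (e + 1) := by rw [pow_succ]; ring
        rw [h6, ← h4] at h5
        omega
      have hc := card_le_card hsub
      rw [card_product, Nat.card_Icc, Nat.add_sub_cancel] at hc
      have hhalf : ((Icc 1 (2 ^ m)).filter (fun a => ¬ 2 * a ≤ 2 ^ m)).card * 2 ≤ 2 ^ m + 1 := by
        have : (Icc 1 (2 ^ m)).filter (fun a => ¬ 2 * a ≤ 2 ^ m) ⊆ Icc (2 ^ m / 2 + 1) (2 ^ m) := by
          intro a ha
          rw [mem_filter, mem_Icc] at ha
          rw [mem_Icc]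
          omega
        have h7 := card_le_card this
        rw [Nat.card_Icc] at h7
        have hm1 : 1 ≤ 2 ^ m := Nat.one_le_two_pow
        generalize 2 ^ m = K at h7 hm1 ⊢
        omega
      have hq2 : ((2 ^ m - 1) / 2 ^ e) * 2 ^ e ≤ 2 ^ m - 1 := Nat.div_mul_le_self _ _
      have hmm : 1 ≤ 2 ^ m := Nat.one_le_two_pow
      obtain ⟨x, hx⟩ : ∃ x, x = ((Icc 1 (2 ^ m)).filter (fun a => ¬ 2 * a ≤ 2 ^ m)).card :=
        ⟨_, rfl⟩
      obtain ⟨y, hy⟩ : ∃ y, y = (2 ^ m - 1) / 2 ^ e := ⟨_, rfl⟩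
      rw [← hx, ← hy] at hc
      rw [← hx] at hhalf
      rw [← hy] at hq2
      calc B.card * 2 ^ (e + 1) ≤ (x * y) * 2 ^ (e + 1) := Nat.mul_le_mul_right _ hc
        _ = (x * 2) * (y * 2 ^ e) := by rw [pow_succ]; ring
        _ ≤ (2 ^ m + 1) * (2 ^ m - 1) := Nat.mul_le_mul hhalf hq2
        _ ≤ 2 ^ m * 2 ^ m := by
            obtain ⟨z, hz⟩ : ∃ z, 2 ^ m = z + 1 := ⟨2 ^ m - 1, by omega⟩
            rw [hz, Nat.add_sub_cancel]
            nlinarith
        _ = 4 ^ m := h4.symm
    calc N.card * 2 ^ (e + 1) = (S.card * 2) * 2 ^ e + B.card * 2 ^ (e + 1) := by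
          rw [← hSB, pow_succ]; ring
      _ ≤ N'.card * 2 ^ e + 4 ^ m := Nat.add_le_add (Nat.mul_le_mul_right _ hSmall) hBig
      _ ≤ (e + 1) * 4 ^ m + 4 ^ m := Nat.add_le_add_right ih _
      _ = (e + 1 + 1) * 4 ^ m := by ring

end Count

/-- pairs inside a vertex set -/
noncomputable def inside (I : Finset (Fin n)) : Finset (Ed n) := univ.filter (fun e => e.1 ⊆ I)

lemma mem_inside {I : Finset (Fin n)} {e : Ed n} : e ∈ inside I ↔ e.1 ⊆ I := by simp [inside]

lemma card_inside (I : Finset (Fin n)) : (inside I).card = I.card.choose 2 := by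
  rw [← card_powersetCard]
  apply card_bij (fun e _ => e.1)
  · intro e he
    rw [mem_powersetCard]
    exact ⟨mem_inside.1 he, e.2⟩
  · intro a _ b _ h
    exact Subtype.ext h
  · intro s hs
    rw [mem_powersetCard] at hs
    exact ⟨⟨s, hs.2⟩, mem_inside.2 hs.1, rfl⟩

lemma inside_mono {I J : Finset (Fin n)} (h : I ⊆ J) : inside I ⊆ inside J := by
  intro e he
  rw [mem_inside] at he ⊢
  exact he.trans h

/-- `f` and `g` agree on all pairs of some `r`-subset of `A` -/
def Ag (A : Finset (Fin n)) (r : ℕ) (f g : Ed n → Bool) : Prop :=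
  ∃ S ⊆ A, S.card = r ∧ ∀ e ∈ inside S, f e = g e

lemma Ag.mono {A : Finset (Fin n)} {r s : ℕ} {f g : Ed n → Bool} (h : Ag A r f g) (hs : s ≤ r) :
    Ag A s f g := by
  obtain ⟨S, hSA, hSr, hS⟩ := h
  obtain ⟨T, hTS, hT⟩ := exists_subset_card_eq (s := S) (n := s) (by omega)
  exact ⟨T, hTS.trans hSA, hT, fun e he => hS e (inside_mono hTS he)⟩

lemma Ag.congr {A : Finset (Fin n)} {r : ℕ} {f g f' g' : Ed n → Bool} (h : Ag A r f g)
    (hf : ∀ e ∈ inside A, f e = f' e) (hg : ∀ e ∈ inside A, g e = g' e) : Ag A r f' g' := by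
  obtain ⟨S, hSA, hSr, hS⟩ := h
  refine ⟨S, hSA, hSr, fun e he => ?_⟩
  have heA := inside_mono hSA he
  rw [← hf e heA, ← hg e heA]
  exact hS e he

/-- the bound with exponent `e` for cross-`K_r`-agreeing pairs of families -/
def Bd (n r e : ℕ) : Prop := ∀ (A : Finset (Fin n)) (F F' : Finset (Ed n → Bool)),
  Supp (inside A) F → Supp (inside A) F' → (∀ f ∈ F, ∀ g ∈ F', Ag A r f g) →
  F.card * F'.card * 2 ^ e ≤ 4 ^ (inside A).card

lemma Bd_zero (n r : ℕ) : Bd n r 0 := by
  intro A F F' h h' _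
  have h1 := card_le_of_supp h
  have h2 := card_le_of_supp h'
  calc F.card * F'.card * 2 ^ 0 = F.card * F'.card := by ring
    _ ≤ 2 ^ (inside A).card * 2 ^ (inside A).card := Nat.mul_le_mul h1 h2
    _ = 4 ^ (inside A).card := by rw [← mul_pow]; norm_num

/-- number of colourings in which two given vertices have the same colour -/
lemma color_count {q : ℕ} (u v : Fin n) (huv : u ≠ v) :
    (univ.filter (fun c : Fin n → Fin q => c u = c v)).card * q = q ^ n := by
  have h : ((univ.filter (fun c : Fin n → Fin q => c u = c v)) ×ˢ (univ : Finset (Fin q))).card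
      = (univ : Finset (Fin n → Fin q)).card := by
    apply card_bij (fun p _ => Function.update p.1 v p.2)
    · intro p _; exact mem_univ _
    · rintro ⟨c, t⟩ hp ⟨c', t'⟩ hp' heq
      rw [mem_product, mem_filter] at hp hp'
      have hc := hp.1.2
      have hc' := hp'.1.2
      simp only at hc hc' heq
      have ht : t = t' := by
        have := congrFun heq v
        simpa using this
      have hcc : ∀ w, w ≠ v → c w = c' w := by
        intro w hw
        have := congrFun heq w
        simpa [Function.update_of_ne hw] using this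
      have hcc2 : c = c' := by
        funext w
        by_cases hw : w = v
        · rw [hw, ← hc, ← hc']; exact hcc u huv
        · exact hcc w hw
      rw [ht, hcc2]
    · intro c _
      refine ⟨(Function.update c v (c u), c v), ?_, ?_⟩
      · rw [mem_product, mem_filter]
        refine ⟨⟨mem_univ _, ?_⟩, mem_univ _⟩
        simp [Function.update_of_ne huv]
      · simp
  rw [card_product, card_univ, card_univ, Fintype.card_fin, Fintype.card_fun, Fintype.card_fin,
    Fintype.card_fin] at h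
  exact h

/-- `c` is constant on the pair `e` -/
def Mono {q : ℕ} (c : Fin n → Fin q) (e : Ed n) : Prop := ∀ x ∈ e.1, ∀ y ∈ e.1, c x = c y

/-- pairs inside `A` that are monochromatic for `c` -/
noncomputable def mon {q : ℕ} (A : Finset (Fin n)) (c : Fin n → Fin q) : Finset (Ed n) :=
  (inside A).filter (Mono c)

lemma mono_count {q : ℕ} (hq : 0 < q) (e : Ed n) :
    (univ.filter (fun c : Fin n → Fin q => Mono c e)).card = q ^ n / q := by
  obtain ⟨e, he⟩ := e
  obtain ⟨u, v, huv, rfl⟩ := card_eq_two.1 he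
  have h : (univ.filter (fun c : Fin n → Fin q => Mono c ⟨{u, v}, he⟩))
      = (univ.filter (fun c : Fin n → Fin q => c u = c v)) := by
    apply filter_congr
    intro c _
    constructor
    · intro h; exact h u (by simp) v (by simp)
    · intro h x hx y hy
      simp only [mem_insert, mem_singleton] at hx hy
      rcases hx with rfl | rfl <;> rcases hy with rfl | rfl
      · rfl
      · exact h
      · exact h.symm
      · rfl
  rw [h, ← color_count (q := q) u v huv, Nat.mul_div_cancel _ hq]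

/-- averaging over all colourings by Shearer's lemma -/
lemma avg {q : ℕ} (hq : 0 < q) (hn : 0 < n) (A : Finset (Fin n)) (F F' : Finset (Ed n → Bool))
    (hF : Supp (inside A) F) (hF' : Supp (inside A) F') (σ : ℝ) (hσ : 0 ≤ σ)
    (h : ∀ c : Fin n → Fin q, ((F.image (res (mon A c))).card : ℝ) *
      ((F'.image (res (mon A c))).card : ℝ) ≤ 4 ^ (mon A c).card * σ) :
    (F.card : ℝ) * F'.card ≤ 4 ^ (inside A).card * σ ^ q := by
  obtain ⟨k, hk⟩ : ∃ k, k = q ^ n / q := ⟨_, rfl⟩
  have hkq : q * k = q ^ n := by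
    rw [hk]
    exact Nat.mul_div_cancel' (dvd_pow_self q hn.ne')
  have hkpos : 0 < k := by
    rcases Nat.eq_zero_or_pos k with h0 | h0
    · rw [h0, mul_zero] at hkq
      exact absurd hkq (pow_pos hq n).ne
    · exact h0
  have hcount : ∀ e ∈ inside A, (univ.filter (fun c : Fin n → Fin q => Mono c e)).card = k := by
    intro e _
    rw [hk, ← mono_count hq e]
  have hcount2 : ∀ e ∈ inside A, ∃ I : Finset (Fin n → Fin q), I.card = k ∧
      ∀ c, c ∈ I ↔ e ∈ mon A c := by
    intro e he
    refine ⟨_, hcount e he, fun c => ?_⟩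
    simp [mon, he]
  have s1 := shearer k hkpos (fun c : Fin n → Fin q => mon A c) (inside A) hcount2 F hF
  have s2 := shearer k hkpos (fun c : Fin n → Fin q => mon A c) (inside A) hcount2 F' hF'
  have hsum : ∑ c : Fin n → Fin q, (mon A c).card = k * (inside A).card := by
    have h1 : ∀ c : Fin n → Fin q, (mon A c).card
        = ∑ e ∈ inside A, if Mono c e then 1 else 0 := by
      intro c
      rw [← card_filter]
      rfl
    rw [sum_congr rfl (fun c _ => h1 c), sum_comm]
    rw [mul_comm, ← smul_eq_mul, ← sum_const]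
    apply sum_congr rfl
    intro e he
    rw [← card_filter]
    exact hcount e he
  have hfin : ((F.card : ℝ) * F'.card) ^ k ≤ (4 ^ (inside A).card * σ ^ q) ^ k := by
    calc ((F.card : ℝ) * F'.card) ^ k = (F.card : ℝ) ^ k * (F'.card : ℝ) ^ k := mul_pow _ _ _
      _ ≤ (∏ c : Fin n → Fin q, ((F.image (res (mon A c))).card : ℝ)) *
          (∏ c : Fin n → Fin q, ((F'.image (res (mon A c))).card : ℝ)) := by
          apply mul_le_mul
          · exact_mod_cast s1
          · exact_mod_cast s2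
          · exact pow_nonneg (Nat.cast_nonneg _) _
          · exact prod_nonneg (fun _ _ => Nat.cast_nonneg _)
      _ = ∏ c : Fin n → Fin q, (((F.image (res (mon A c))).card : ℝ) *
          ((F'.image (res (mon A c))).card : ℝ)) := prod_mul_distrib.symm
      _ ≤ ∏ c : Fin n → Fin q, ((4 : ℝ) ^ (mon A c).card * σ) := by
          apply prod_le_prod
          · intro c _; exact mul_nonneg (Nat.cast_nonneg _) (Nat.cast_nonneg _)
          · intro c _; exact h c
      _ = (4 : ℝ) ^ (∑ c : Fin n → Fin q, (mon A c).card) * σ ^ (q ^ n) := by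
          have hcard : Fintype.card (Fin n → Fin q) = q ^ n := by
            rw [Fintype.card_fun, Fintype.card_fin, Fintype.card_fin]
          rw [prod_mul_distrib, prod_pow_eq_pow_sum, prod_const, card_univ, hcard]
      _ = (4 ^ (inside A).card * σ ^ q) ^ k := by
          rw [hsum, ← hkq, mul_pow, ← pow_mul, ← pow_mul, mul_comm k]
  exact le_of_pow_le_pow_left₀ hkpos.ne' (by positivity) hfin

/-- linear bound: `|F||F'| ≤ 4^N / 4^(r-1)` -/
lemma Bd_linear (hn : 0 < n) (r : ℕ) (hr : 2 ≤ r) : Bd n r (2 * (r - 1)) := by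
  intro A F F' hF hF' hx
  have hq : 0 < r - 1 := by omega
  have main := avg hq hn A F F' hF hF' (1 / 4) (by norm_num) (by
    intro c
    obtain ⟨T, hT⟩ : ∃ T, T = mon A c := ⟨_, rfl⟩
    rw [← hT]
    obtain ⟨cp, hcp⟩ : ∃ cp : (Ed n → Bool) → (Ed n → Bool),
        cp = fun f e => if e ∈ T then !(f e) else false := ⟨_, rfl⟩
    have hinj : Set.InjOn cp ((F.image (res T)) : Set (Ed n → Bool)) := by
      intro f hf g hg hfg
      rw [mem_coe] at hf hg
      funext e
      by_cases he : e ∈ T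
      · have := congrFun hfg e
        rw [hcp] at this
        simpa [he] using this
      · rw [supp_image_res T F f hf e he, supp_image_res T F g hg e he]
    have hdis : Disjoint ((F.image (res T)).image cp) (F'.image (res T)) := by
      rw [disjoint_left]
      intro h hh hh'
      obtain ⟨f', hf', rfl⟩ := mem_image.1 hh
      obtain ⟨f, hf, rfl⟩ := mem_image.1 hf'
      obtain ⟨g, hg, hgf⟩ := mem_image.1 hh'
      obtain ⟨S, hSA, hSr, hS⟩ := hx f hf g hg
      -- two vertices of S have the same colour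
      have hmaps : ∀ a ∈ S, c a ∈ (univ : Finset (Fin (r - 1))) := fun _ _ => mem_univ _
      have hlt : (univ : Finset (Fin (r - 1))).card < S.card := by
        rw [card_univ, Fintype.card_fin]; omega
      obtain ⟨x, hx', y, hy', hxy, hcxy⟩ := exists_ne_map_eq_of_card_lt_of_maps_to hlt hmaps
      have he2 : ({x, y} : Finset (Fin n)).card = 2 := card_pair hxy
      have heS : (⟨{x, y}, he2⟩ : Ed n) ∈ inside S := by
        rw [mem_inside]
        intro w hw
        simp only [mem_insert, mem_singleton] at hw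
        rcases hw with rfl | rfl
        · exact hx'
        · exact hy'
      have heT : (⟨{x, y}, he2⟩ : Ed n) ∈ T := by
        rw [hT, mon, mem_filter]
        refine ⟨inside_mono hSA heS, ?_⟩
        intro a ha b hb
        simp only [mem_insert, mem_singleton] at ha hb
        rcases ha with rfl | rfl <;> rcases hb with rfl | rfl
        · rfl
        · exact hcxy
        · exact hcxy.symm
        · rfl
      have h1 := congrFun hgf ⟨{x, y}, he2⟩
      rw [hcp] at h1
      simp only [heT, if_true] at h1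
      rw [res_apply_of_mem heT, res_apply_of_mem heT, hS _ heS] at h1
      cases hgx : g ⟨{x, y}, he2⟩ <;> rw [hgx] at h1 <;> exact absurd h1 (by decide)
    have hsup : Supp T (((F.image (res T)).image cp) ∪ (F'.image (res T))) := by
      intro f hf e he
      rcases mem_union.1 hf with hf | hf
      · obtain ⟨g, _, rfl⟩ := mem_image.1 hf
        rw [hcp]
        simp [he]
      · exact supp_image_res T F' f hf e he
    have hc := card_le_of_supp hsup
    rw [card_union_of_disjoint hdis, card_image_of_injOn hinj] at hc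
    have hc' : ((F.image (res T)).card : ℝ) + ((F'.image (res T)).card : ℝ) ≤ 2 ^ T.card := by
      exact_mod_cast hc
    have h4 : (4 : ℝ) ^ T.card = 2 ^ T.card * 2 ^ T.card := by
      rw [← mul_pow]; norm_num
    rw [h4]
    have hp1 : (0 : ℝ) ≤ ((F.image (res T)).card : ℝ) := by positivity
    have hp2 : (0 : ℝ) ≤ ((F'.image (res T)).card : ℝ) := by positivity
    nlinarith [sq_nonneg (((F.image (res T)).card : ℝ) - ((F'.image (res T)).card : ℝ))])
  have h3 : ((F.card : ℝ) * F'.card) * 2 ^ (2 * (r - 1)) ≤ 4 ^ (inside A).card := by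
    calc ((F.card : ℝ) * F'.card) * 2 ^ (2 * (r - 1))
        ≤ (4 ^ (inside A).card * (1 / 4) ^ (r - 1)) * 2 ^ (2 * (r - 1)) :=
          mul_le_mul_of_nonneg_right main (by positivity)
      _ = 4 ^ (inside A).card * ((1 / 4) * 2 ^ 2) ^ (r - 1) := by
          rw [mul_pow, ← pow_mul]; ring
      _ = 4 ^ (inside A).card := by norm_num
  exact_mod_cast h3

section Inside

/-- the loss term of the recursion -/
noncomputable def sig (e : ℕ → ℕ) (r : ℕ) : ℝ :=
  ∑ j ∈ Ico 1 r, ((e j : ℝ) + 1) / 2 ^ (e j + e (r - j))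

/-- fibre of `H` over `u` -/
noncomputable def fib (B : Finset (Ed n)) (H : Finset (Ed n → Bool)) (u : Ed n → Bool) :
    Finset (Ed n → Bool) := H.filter (fun f => res B f = u)

/-- functions on `B` with at least `a` extensions in `H` -/
noncomputable def lev (B : Finset (Ed n)) (H : Finset (Ed n → Bool)) (a : ℕ) :
    Finset (Ed n → Bool) := (H.image (res B)).filter (fun u => a ≤ (fib B H u).card)

lemma card_eq_sum_lev (B : Finset (Ed n)) (H : Finset (Ed n → Bool)) (K : ℕ)
    (hK : ∀ u, (fib B H u).card ≤ K) : H.card = ∑ a ∈ Icc 1 K, (lev B H a).card := by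
  have h1 : H.card = ∑ u ∈ H.image (res B), (fib B H u).card :=
    card_eq_sum_card_image (res B) H
  have h2 : ∀ u ∈ H.image (res B), (fib B H u).card
      = ∑ a ∈ Icc 1 K, if a ≤ (fib B H u).card then 1 else 0 := by
    intro u _
    rw [← card_filter]
    have : (Icc 1 K).filter (fun a => a ≤ (fib B H u).card) = Icc 1 (fib B H u).card := by
      ext a
      have := hK u
      rw [mem_filter, mem_Icc, mem_Icc]
      omega
    rw [this, Nat.card_Icc, Nat.add_sub_cancel]
  rw [h1, sum_congr rfl h2, sum_comm]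
  apply sum_congr rfl
  intro a _
  rw [← card_filter]
  rfl

/-- decomposition in two independent parts -/
lemma inside_bound (A0 A1 : Finset (Fin n)) (H H' : Finset (Ed n → Bool)) (r : ℕ) (hr : 2 ≤ r)
    (e : ℕ → ℕ) (he1 : e 1 = 0) (hBd : ∀ j, 1 ≤ j → j < r → Bd n j (e j))
    (hH : Supp (inside A0 ∪ inside A1) H) (hH' : Supp (inside A0 ∪ inside A1) H')
    (hx : ∀ f ∈ H, ∀ g ∈ H', ∀ j, 1 ≤ j → j < r → Ag A1 (j + 1) f g ∨ Ag A0 (r - j) f g) :
    (H.card : ℝ) * H'.card ≤ 4 ^ ((inside A0).card + (inside A1).card) * sig e r := by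
  obtain ⟨B0, hB0⟩ : ∃ B, B = inside A0 := ⟨_, rfl⟩
  obtain ⟨B1, hB1⟩ : ∃ B, B = inside A1 := ⟨_, rfl⟩
  obtain ⟨m, hm⟩ : ∃ m, m = B1.card := ⟨_, rfl⟩
  rw [← hB0, ← hB1] at hH hH' ⊢
  rw [← hm]
  -- the restriction to B1 is injective on fibres
  have fibinj : ∀ G : Finset (Ed n → Bool), Supp (B0 ∪ B1) G → ∀ u,
      ((fib B0 G u).image (res B1)).card = (fib B0 G u).card := by
    intro G hG u
    apply card_image_of_injOn
    intro f hf g hg hfg
    rw [mem_coe, fib, mem_filter] at hf hg
    funext x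
    by_cases hx0 : x ∈ B0
    · have h1 := congrFun hf.2 x
      have h2 := congrFun hg.2 x
      rw [res_apply_of_mem hx0] at h1 h2
      rw [h1, h2]
    · by_cases hx1 : x ∈ B1
      · have h1 := congrFun hfg x
        rwa [res_apply_of_mem hx1, res_apply_of_mem hx1] at h1
      · have hxx : x ∉ B0 ∪ B1 := by
          rw [mem_union]
          tauto
        rw [hG f hf.1 x hxx, hG g hg.1 x hxx]
  have fible : ∀ G : Finset (Ed n → Bool), Supp (B0 ∪ B1) G → ∀ u,
      (fib B0 G u).card ≤ 2 ^ m := by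
    intro G hG u
    rw [← fibinj G hG u, hm]
    exact card_le_of_supp (supp_image_res B1 _)
  have c1 := card_eq_sum_lev B0 H (2 ^ m) (fible H hH)
  have c2 := card_eq_sum_lev B0 H' (2 ^ m) (fible H' hH')
  have supplev : ∀ (G : Finset (Ed n → Bool)) (a : ℕ), Supp B0 (lev B0 G a) := by
    intro G a f hf
    rw [lev, mem_filter] at hf
    exact supp_image_res B0 G f hf.1
  have h4m : (4 : ℕ) ^ m = 2 ^ m * 2 ^ m := by
    rw [← mul_pow]; norm_num
  -- the key claim
  have claim : ∀ p ∈ Icc 1 (2 ^ m) ×ˢ Icc 1 (2 ^ m), ∃ j ∈ Ico 1 r,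
      p.1 * p.2 * 2 ^ (e j) ≤ 4 ^ m ∧
      (lev B0 H p.1).card * (lev B0 H' p.2).card * 2 ^ (e (r - j)) ≤ 4 ^ B0.card := by
    rintro ⟨a, b⟩ hp
    rw [mem_product, mem_Icc, mem_Icc] at hp
    obtain ⟨⟨ha1, ha2⟩, ⟨hb1, hb2⟩⟩ := hp
    simp only at ha1 ha2 hb1 hb2 ⊢
    have hex : ∃ j, 1 ≤ j ∧ (j = r - 1 ∨ 4 ^ m < a * b * 2 ^ (e (j + 1))) :=
      ⟨r - 1, by omega, Or.inl rfl⟩
    obtain ⟨j, hj⟩ : ∃ j, j = Nat.find hex := ⟨_, rfl⟩
    have hjs := Nat.find_spec hex
    rw [← hj] at hjs
    have hjr : j ≤ r - 1 := by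
      rw [hj]
      exact Nat.find_min' hex ⟨by omega, Or.inl rfl⟩
    refine ⟨j, ?_, ?_, ?_⟩
    · rw [mem_Ico]; omega
    · rcases Nat.lt_or_ge 1 j with h1j | h1j
      · have hmin := Nat.find_min hex (m := j - 1) (by omega)
        rw [not_and_or, not_or] at hmin
        rcases hmin with h | h
        · omega
        · have := h.2
          rw [Nat.sub_add_cancel (by omega)] at this
          omega
      · have : j = 1 := by omega
        rw [this, he1, pow_zero, mul_one, h4m]
        exact Nat.mul_le_mul ha2 hb2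
    · rcases hjs.2 with hlast | hlt
      · have h1 : r - j = 1 := by omega
        rw [h1, he1, pow_zero, mul_one]
        have q1 := card_le_of_supp (supplev H a)
        have q2 := card_le_of_supp (supplev H' b)
        calc (lev B0 H a).card * (lev B0 H' b).card ≤ 2 ^ B0.card * 2 ^ B0.card :=
              Nat.mul_le_mul q1 q2
          _ = 4 ^ B0.card := by rw [← mul_pow]; norm_num
      · rcases Nat.lt_or_ge (j + 1) r with hjr1 | hjr1
        · rw [hB0]
          apply hBd (r - j) (by omega) (by omega) A0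
          · rw [← hB0]; exact supplev H a
          · rw [← hB0]; exact supplev H' b
          · intro u hu u' hu'
            rw [← hB0] at hu hu'
            rw [lev, mem_filter] at hu hu'
            by_contra hcon
            have hall : ∀ f1 ∈ (fib B0 H u).image (res B1), ∀ g1 ∈ (fib B0 H' u').image (res B1),
                Ag A1 (j + 1) f1 g1 := by
              intro f1 hf1 g1 hg1
              obtain ⟨f, hf, rfl⟩ := mem_image.1 hf1
              obtain ⟨g, hg, rfl⟩ := mem_image.1 hg1
              rw [fib, mem_filter] at hf hg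
              rcases hx f hf.1 g hg.1 j hjs.1 (by omega) with h | h
              · refine h.congr ?_ ?_
                · intro x hx1
                  rw [← hB1] at hx1
                  rw [res_apply_of_mem hx1]
                · intro x hx1
                  rw [← hB1] at hx1
                  rw [res_apply_of_mem hx1]
              · exfalso
                apply hcon
                rw [← hf.2, ← hg.2]
                refine h.congr ?_ ?_
                · intro x hx0
                  rw [← hB0] at hx0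
                  rw [res_apply_of_mem hx0]
                · intro x hx0
                  rw [← hB0] at hx0
                  rw [res_apply_of_mem hx0]
            have hb := hBd (j + 1) (by omega) hjr1 A1 _ _
              (by rw [← hB1]; exact supp_image_res B1 _)
              (by rw [← hB1]; exact supp_image_res B1 _) hall
            rw [fibinj H hH u, fibinj H' hH' u', ← hB1, ← hm] at hb
            have : a * b * 2 ^ e (j + 1) ≤ 4 ^ m := by
              refine le_trans ?_ hb
              apply Nat.mul_le_mul_right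
              exact Nat.mul_le_mul hu.2 hu'.2
            omega
        · have h1 : r - j = 1 := by omega
          rw [h1, he1, pow_zero, mul_one]
          have q1 := card_le_of_supp (supplev H a)
          have q2 := card_le_of_supp (supplev H' b)
          calc (lev B0 H a).card * (lev B0 H' b).card ≤ 2 ^ B0.card * 2 ^ B0.card :=
                Nat.mul_le_mul q1 q2
            _ = 4 ^ B0.card := by rw [← mul_pow]; norm_num
  -- sum up
  have hprod : (H.card : ℝ) * H'.card = ∑ p ∈ Icc 1 (2 ^ m) ×ˢ Icc 1 (2 ^ m),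
      ((lev B0 H p.1).card : ℝ) * ((lev B0 H' p.2).card : ℝ) := by
    rw [c1, c2, sum_product]
    push_cast
    rw [sum_mul_sum]
  rw [hprod]
  have step1 : ∀ p ∈ Icc 1 (2 ^ m) ×ˢ Icc 1 (2 ^ m),
      ((lev B0 H p.1).card : ℝ) * ((lev B0 H' p.2).card : ℝ) ≤
      ∑ j ∈ Ico 1 r, if p.1 * p.2 * 2 ^ (e j) ≤ 4 ^ m then (4 : ℝ) ^ B0.card / 2 ^ (e (r - j))
        else 0 := by
    intro p hp
    obtain ⟨j, hj, hj1, hj2⟩ := claim p hp
    have h1 : ((lev B0 H p.1).card : ℝ) * ((lev B0 H' p.2).card : ℝ)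
        ≤ (4 : ℝ) ^ B0.card / 2 ^ (e (r - j)) := by
      rw [le_div_iff₀ (by positivity)]
      exact_mod_cast hj2
    refine h1.trans ?_
    have h2 : (4 : ℝ) ^ B0.card / 2 ^ (e (r - j))
        = if p.1 * p.2 * 2 ^ (e j) ≤ 4 ^ m then (4 : ℝ) ^ B0.card / 2 ^ (e (r - j)) else 0 := by
      rw [if_pos hj1]
    rw [h2]
    apply single_le_sum (f := fun j => if p.1 * p.2 * 2 ^ (e j) ≤ 4 ^ m then
      (4 : ℝ) ^ B0.card / 2 ^ (e (r - j)) else 0) _ hj
    intro i _
    split_ifs
    · positivity
    · exact le_refl _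
  refine (sum_le_sum step1).trans ?_
  rw [sum_comm, sig, mul_sum]
  apply sum_le_sum
  intro j _
  rw [← sum_filter, sum_const, nsmul_eq_mul]
  have hcp := count_pairs m (e j)
  have hcp' : (((Icc 1 (2 ^ m) ×ˢ Icc 1 (2 ^ m)).filter
      (fun p => p.1 * p.2 * 2 ^ (e j) ≤ 4 ^ m)).card : ℝ) * 2 ^ (e j) ≤ ((e j : ℝ) + 1) * 4 ^ m := by
    exact_mod_cast hcp
  generalize (((Icc 1 (2 ^ m) ×ˢ Icc 1 (2 ^ m)).filter
      (fun p => p.1 * p.2 * 2 ^ (e j) ≤ 4 ^ m)).card : ℝ) = N at hcp' ⊢
  rw [pow_add 4, pow_add 2]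
  have e2 : (0 : ℝ) < 2 ^ (e j) := by positivity
  have e3 : (0 : ℝ) < 2 ^ (e (r - j)) := by positivity
  have e4 : (0 : ℝ) < 4 ^ B0.card := by positivity
  have e5 : N ≤ ((e j : ℝ) + 1) * 4 ^ m / 2 ^ (e j) := by
    rw [le_div_iff₀ e2]; exact hcp'
  calc N * (4 ^ B0.card / 2 ^ e (r - j))
      ≤ (((e j : ℝ) + 1) * 4 ^ m / 2 ^ (e j)) * (4 ^ B0.card / 2 ^ e (r - j)) :=
        mul_le_mul_of_nonneg_right e5 (by positivity)
    _ = _ := by
        field_simp

/-- the recursion step -/
lemma Bd_rec (hn : 0 < n) (r : ℕ) (hr : 2 ≤ r) (e : ℕ → ℕ) (he1 : e 1 = 0)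
    (hBd : ∀ j, 1 ≤ j → j < r → Bd n j (e j)) (X : ℕ) (hX : (2 : ℝ) ^ X * sig e r ^ 2 ≤ 1) :
    Bd n r X := by
  intro A F F' hF hF' hx
  have hsig : 0 ≤ sig e r := by
    rw [sig]
    exact sum_nonneg (fun j _ => by positivity)
  have main := avg (q := 2) (by norm_num) hn A F F' hF hF' (sig e r) hsig (by
    intro c
    obtain ⟨A0, hA0⟩ : ∃ A0, A0 = A.filter (fun x => c x = 0) := ⟨_, rfl⟩
    obtain ⟨A1, hA1⟩ : ∃ A1, A1 = A.filter (fun x => ¬ c x = 0) := ⟨_, rfl⟩
    have hc1 : ∀ x, ¬ c x = 0 ↔ c x = 1 := by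
      intro x
      have := (c x).2
      constructor
      · intro h
        apply Fin.ext
        have h0 : (c x).1 ≠ 0 := fun h' => h (Fin.ext h')
        show (c x).1 = 1
        omega
      · intro h; rw [h]; decide
    have hT : mon A c = inside A0 ∪ inside A1 := by
      ext x
      rw [mon, mem_filter, mem_union, mem_inside, mem_inside, mem_inside]
      constructor
      · rintro ⟨hxA, hxm⟩
        obtain ⟨x, hx2⟩ := x
        obtain ⟨u, v, huv, rfl⟩ := card_eq_two.1 hx2
        have huv' := hxm u (by simp) v (by simp)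
        by_cases hu0 : c u = 0
        · left
          intro w hw
          rw [hA0, mem_filter]
          refine ⟨hxA hw, ?_⟩
          rw [← hu0]
          exact hxm w hw u (by simp)
        · right
          intro w hw
          rw [hA1, mem_filter]
          refine ⟨hxA hw, ?_⟩
          rw [hxm w hw u (by simp)]
          exact hu0
      · rintro (h | h)
        · refine ⟨fun w hw => ?_, fun w hw w' hw' => ?_⟩
          · have := h hw
            rw [hA0, mem_filter] at this
            exact this.1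
          · have h1 := h hw
            have h2 := h hw'
            rw [hA0, mem_filter] at h1 h2
            rw [h1.2, h2.2]
        · refine ⟨fun w hw => ?_, fun w hw w' hw' => ?_⟩
          · have := h hw
            rw [hA1, mem_filter] at this
            exact this.1
          · have h1 := h hw
            have h2 := h hw'
            rw [hA1, mem_filter, hc1] at h1 h2
            rw [h1.2, h2.2]
    have hdisj : Disjoint (inside A0) (inside A1) := by
      rw [disjoint_left]
      intro x h0 h1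
      rw [mem_inside] at h0 h1
      obtain ⟨x, hx2⟩ := x
      obtain ⟨u, v, huv, rfl⟩ := card_eq_two.1 hx2
      have a0 := h0 (show u ∈ ({u, v} : Finset (Fin n)) by simp)
      have a1 := h1 (show u ∈ ({u, v} : Finset (Fin n)) by simp)
      rw [hA0, mem_filter] at a0
      rw [hA1, mem_filter] at a1
      exact a1.2 a0.2
    have hcardT : (mon A c).card = (inside A0).card + (inside A1).card := by
      rw [hT, card_union_of_disjoint hdisj]
    rw [hcardT, hT]
    apply inside_bound A0 A1 _ _ r hr e he1 hBd (supp_image_res _ _) (supp_image_res _ _)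
    intro f' hf' g' hg' j hj1 hjr
    obtain ⟨f, hf, rfl⟩ := mem_image.1 hf'
    obtain ⟨g, hg, rfl⟩ := mem_image.1 hg'
    obtain ⟨S, hSA, hSr, hS⟩ := hx f hf g hg
    have hsplit : (S.filter (fun x => c x = 0)).card + (S.filter (fun x => ¬ c x = 0)).card
        = S.card := card_filter_add_card_filter_not _
    have hsub1 : S.filter (fun x => ¬ c x = 0) ⊆ A1 := by
      intro x hx'
      rw [mem_filter] at hx'
      rw [hA1, mem_filter]
      exact ⟨hSA hx'.1, hx'.2⟩
    have hsub0 : S.filter (fun x => c x = 0) ⊆ A0 := by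
      intro x hx'
      rw [mem_filter] at hx'
      rw [hA0, mem_filter]
      exact ⟨hSA hx'.1, hx'.2⟩
    rcases Nat.lt_or_ge j (S.filter (fun x => ¬ c x = 0)).card with hlt | hge
    · left
      have h1 : Ag A1 (S.filter (fun x => ¬ c x = 0)).card f g :=
        ⟨_, hsub1, rfl, fun x hx' => hS x (inside_mono (filter_subset _ _) hx')⟩
      refine (h1.mono hlt).congr ?_ ?_
      · intro x hx'
        rw [res_apply_of_mem (mem_union_right _ hx')]
      · intro x hx'
        rw [res_apply_of_mem (mem_union_right _ hx')]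
    · right
      have h1 : Ag A0 (S.filter (fun x => c x = 0)).card f g :=
        ⟨_, hsub0, rfl, fun x hx' => hS x (inside_mono (filter_subset _ _) hx')⟩
      refine (h1.mono (by omega)).congr ?_ ?_
      · intro x hx'
        rw [res_apply_of_mem (mem_union_left _ hx')]
      · intro x hx'
        rw [res_apply_of_mem (mem_union_left _ hx')])
  have h3 : ((F.card : ℝ) * F'.card) * 2 ^ X ≤ 4 ^ (inside A).card := by
    calc ((F.card : ℝ) * F'.card) * 2 ^ X
        ≤ (4 ^ (inside A).card * sig e r ^ 2) * 2 ^ X :=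
          mul_le_mul_of_nonneg_right main (by positivity)
      _ = 4 ^ (inside A).card * (2 ^ X * sig e r ^ 2) := by ring
      _ ≤ 4 ^ (inside A).card * 1 := mul_le_mul_of_nonneg_left hX (by positivity)
      _ = 4 ^ (inside A).card := mul_one _
  exact_mod_cast h3

end Inside

section Numbers

/-- exponents for small `r` -/
def tab : List ℕ :=
  [0, 0, 2, 4, 6, 8, 10, 12, 14, 16, 19, 23, 26, 31, 35, 39, 43, 48, 53, 58, 64, 70, 77, 84,
   91, 99, 107, 115, 123, 131, 140, 149, 157, 167, 176, 186, 196, 206, 217, 228, 240, 252,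
   264, 277, 291, 304, 318, 333, 347, 362, 378, 393, 409, 424, 440, 457, 473, 489, 506, 523,
   540, 557, 575, 593, 610, 629, 647, 666, 685, 704, 724, 744, 764, 784, 805, 827, 848, 870,
   893, 916, 939, 963, 987, 1012, 1037, 1062, 1088, 1115, 1141, 1169]

/-- the exponent in the cross version -/
def ex (r : ℕ) : ℕ := if r < 90 then tab.getD r 0 else (2 * r ^ 2 + 8 * r - 10) / 15

/-- integer form of the loss term -/
def sN (r : ℕ) : ℕ := ∑ j ∈ Ico 1 r, (ex j + 1) * 2 ^ (2400 - (ex j + ex (r - j)))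

lemma T1 : ∀ r ∈ Ico 10 90, 2 ^ (ex r) * (sN r) ^ 2 ≤ 4 ^ 2400 ∧
    ∀ j ∈ Ico 1 r, ex j + ex (r - j) ≤ 2400 := by
  decide +kernel

lemma T2 : ∀ r ∈ Ico 1 10, ex r = 2 * (r - 1) := by decide +kernel

lemma T3a : ∀ r ∈ Ico 1 90, 2 * r ^ 2 + 8 * r ≤ 15 * ex r + 24 := by decide +kernel

lemma T4a : ∀ r ∈ Ico 1 90, ex r + 1 ≤ r ^ 2 := by decide +kernel

lemma T5a : ∀ r ∈ Ico 2 90, 2 * r ^ 2 ≤ 15 * ex r := by decide +kernel

lemma ex_one : ex 1 = 0 := by decide +kernel

lemma ex_big {r : ℕ} (h : 90 ≤ r) : ex r = (2 * r ^ 2 + 8 * r - 10) / 15 := by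
  rw [ex, if_neg (by omega)]

lemma T3 (r : ℕ) (h : 1 ≤ r) : 2 * r ^ 2 + 8 * r ≤ 15 * ex r + 24 := by
  rcases Nat.lt_or_ge r 90 with h1 | h1
  · exact T3a r (mem_Ico.2 ⟨h, h1⟩)
  · rw [ex_big h1]
    have : 90 * r ≤ r ^ 2 := by nlinarith
    omega

lemma T4 (r : ℕ) (h : 1 ≤ r) : ex r + 1 ≤ r ^ 2 := by
  rcases Nat.lt_or_ge r 90 with h1 | h1
  · exact T4a r (mem_Ico.2 ⟨h, h1⟩)
  · rw [ex_big h1]
    have : 90 * r ≤ r ^ 2 := by nlinarith
    omega

lemma T5 (r : ℕ) (h : 2 ≤ r) : 2 * r ^ 2 ≤ 15 * ex r := by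
  rcases Nat.lt_or_ge r 90 with h1 | h1
  · exact T5a r (mem_Ico.2 ⟨h, h1⟩)
  · rw [ex_big h1]
    have : 90 * r ≤ r ^ 2 := by nlinarith
    omega

lemma growth : ∀ r : ℕ, 90 ≤ r → r ^ 90 ≤ 2 ^ (8 * r - 86) := by
  intro r hr
  induction r, hr using Nat.le_induction with
  | base => decide +kernel
  | succ r hr ih =>
    have h1 : (90 * (r + 1)) ^ 90 ≤ (91 * r) ^ 90 := by
      apply Nat.pow_le_pow_left
      omega
    rw [mul_pow, mul_pow] at h1
    have h2 : 91 ^ 90 ≤ 2 ^ 8 * 90 ^ 90 := by norm_num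
    have h3 : 90 ^ 90 * (r + 1) ^ 90 ≤ 90 ^ 90 * (2 ^ 8 * r ^ 90) := by
      calc 90 ^ 90 * (r + 1) ^ 90 ≤ 91 ^ 90 * r ^ 90 := h1
        _ ≤ (2 ^ 8 * 90 ^ 90) * r ^ 90 := Nat.mul_le_mul_right _ h2
        _ = 90 ^ 90 * (2 ^ 8 * r ^ 90) := by ring
    have h4 := Nat.le_of_mul_le_mul_left h3 (by positivity)
    calc (r + 1) ^ 90 ≤ 2 ^ 8 * r ^ 90 := h4
      _ ≤ 2 ^ 8 * 2 ^ (8 * r - 86) := Nat.mul_le_mul_left _ ih
      _ = 2 ^ (8 * (r + 1) - 86) := by
          rw [← pow_add]
          congr 1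
          omega

lemma sig_small (r : ℕ) (h : r ∈ Ico 10 90) : (2 : ℝ) ^ (ex r) * sig ex r ^ 2 ≤ 1 := by
  obtain ⟨h1, h2⟩ := T1 r h
  have hs : sig ex r = (sN r : ℝ) / 2 ^ 2400 := by
    rw [sig, sN, eq_div_iff (by positivity), sum_mul]
    push_cast
    apply sum_congr rfl
    intro j hj
    have h3 := h2 j hj
    rw [div_mul_eq_mul_div, div_eq_iff (by positivity), mul_assoc, ← pow_add]
    congr 2
    omega
  rw [hs, div_pow, ← mul_div_assoc, div_le_one (by positivity)]
  have h4 : ((2 : ℝ) ^ 2400) ^ 2 = 4 ^ 2400 := by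
    rw [← pow_mul, mul_comm, pow_mul]; norm_num
  rw [h4]
  exact_mod_cast h1

lemma sig_big (r : ℕ) (h : 90 ≤ r) : (2 : ℝ) ^ (ex r) * sig ex r ^ 2 ≤ 1 := by
  obtain ⟨m, hm⟩ : ∃ m, m = (r ^ 2 + 8 * r - 34) / 15 := ⟨_, rfl⟩
  have hr2 : 90 * r ≤ r ^ 2 := by nlinarith
  have hmle : ∀ j ∈ Ico 1 r, m ≤ ex j + ex (r - j) := by
    intro j hj
    rw [mem_Ico] at hj
    have a1 := T3 j hj.1
    have a2 := T3 (r - j) (by omega)
    have a3 : r ^ 2 ≤ 2 * j ^ 2 + 2 * (r - j) ^ 2 := by
      obtain ⟨i, hi⟩ : ∃ i, i = r - j := ⟨_, rfl⟩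
      rw [← hi]
      have : r = i + j := by omega
      rw [this]
      zify
      nlinarith [sq_nonneg ((i : ℤ) - j)]
    have a4 : r = (r - j) + j := by omega
    generalize r - j = i at *
    generalize r ^ 2 = R at *
    generalize j ^ 2 = J at *
    generalize i ^ 2 = I at *
    omega
  have hD : ∃ D, 2 * m = ex r + D ∧ 8 * r - 86 ≤ 15 * D := by
    refine ⟨2 * m - ex r, ?_, ?_⟩
    · rw [hm, ex_big h]
      generalize r ^ 2 = R at *
      omega
    · rw [hm, ex_big h]
      generalize r ^ 2 = R at *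
      omega
  obtain ⟨D, hD1, hD2⟩ := hD
  have hr6 : r ^ 6 ≤ 2 ^ D := by
    have h1 : (r ^ 6) ^ 15 ≤ (2 ^ D) ^ 15 := by
      rw [← pow_mul, ← pow_mul]
      calc r ^ (6 * 15) ≤ 2 ^ (8 * r - 86) := growth r h
        _ ≤ 2 ^ (D * 15) := Nat.pow_le_pow_right (by norm_num) (by omega)
    exact le_of_pow_le_pow_left₀ (by norm_num) (by positivity) h1
  have hsig : sig ex r ≤ (r : ℝ) ^ 3 / 2 ^ m := by
    have h1 : sig ex r ≤ ∑ j ∈ Ico 1 r, (r : ℝ) ^ 2 / 2 ^ m := by
      rw [sig]
      apply sum_le_sum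
      intro j hj
      have hj' := mem_Ico.1 hj
      apply div_le_div₀ (by positivity)
      · have a1 := T4 j hj'.1
        have a2 : j ^ 2 ≤ r ^ 2 := Nat.pow_le_pow_left (by omega) 2
        have a3 : ex j + 1 ≤ r ^ 2 := a1.trans a2
        exact_mod_cast a3
      · positivity
      · exact pow_le_pow_right₀ (by norm_num) (hmle j hj)
    refine h1.trans ?_
    rw [sum_const, Nat.card_Ico, nsmul_eq_mul, ← mul_div_assoc]
    apply div_le_div_of_nonneg_right _ (by positivity)
    have h2 : ((r - 1 : ℕ) : ℝ) ≤ r := by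
      exact_mod_cast Nat.sub_le r 1
    calc ((r - 1 : ℕ) : ℝ) * (r : ℝ) ^ 2 ≤ (r : ℝ) * (r : ℝ) ^ 2 :=
          mul_le_mul_of_nonneg_right h2 (by positivity)
      _ = (r : ℝ) ^ 3 := by ring
  have hs0 : 0 ≤ sig ex r := by
    rw [sig]
    exact sum_nonneg (fun j _ => by positivity)
  calc (2 : ℝ) ^ (ex r) * sig ex r ^ 2 ≤ 2 ^ (ex r) * ((r : ℝ) ^ 3 / 2 ^ m) ^ 2 :=
        mul_le_mul_of_nonneg_left (pow_le_pow_left₀ hs0 hsig 2) (by positivity)
    _ = 2 ^ (ex r) * (r : ℝ) ^ 6 / 2 ^ (2 * m) := by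
        rw [div_pow, ← pow_mul, ← pow_mul, mul_comm m 2]; ring
    _ ≤ 1 := by
        rw [div_le_one (by positivity), hD1, pow_add]
        apply mul_le_mul_of_nonneg_left _ (by positivity)
        exact_mod_cast hr6

end Numbers

/-- the cross version with explicit exponents -/
theorem Bd_ex (hn : 0 < n) : ∀ r : ℕ, 1 ≤ r → Bd n r (ex r) := by
  intro r
  induction r using Nat.strong_induction_on with
  | _ r ih =>
    intro hr
    rcases Nat.lt_or_ge r 10 with h | h
    · rw [T2 r (mem_Ico.2 ⟨hr, h⟩)]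
      rcases Nat.lt_or_ge 1 r with h1 | h1
      · exact Bd_linear hn r h1
      · have : r = 1 := by omega
        rw [this]
        exact Bd_zero n 1
    · apply Bd_rec hn r (by omega) ex ex_one (fun j hj1 hj2 => ih j hj2 hj1) (ex r)
      rcases Nat.lt_or_ge r 90 with h2 | h2
      · exact sig_small r (mem_Ico.2 ⟨h, h2⟩)
      · exact sig_big r h2

/-- the function of a graph -/
noncomputable def toFn (G : SimpleGraph (Fin n)) : Ed n → Bool :=
  fun e => decide (∃ u ∈ e.1, ∃ v ∈ e.1, G.Adj u v)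

lemma toFn_pair (G : SimpleGraph (Fin n)) {u v : Fin n} (h : u ≠ v) :
    toFn G ⟨{u, v}, card_pair h⟩ = true ↔ G.Adj u v := by
  unfold toFn
  rw [decide_eq_true_iff]
  constructor
  · rintro ⟨a, ha, b, hb, hab⟩
    simp only [mem_insert, mem_singleton] at ha hb
    rcases ha with rfl | rfl <;> rcases hb with rfl | rfl
    · exact absurd hab (G.irrefl)
    · exact hab
    · exact hab.symm
    · exact absurd hab (G.irrefl)
  · intro hab
    exact ⟨u, by simp, v, by simp, hab⟩

lemma toFn_injective : Function.Injective (toFn (n := n)) := by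
  intro G H h
  ext u v
  by_cases huv : u = v
  · subst huv
    exact ⟨fun h => absurd h G.irrefl, fun h => absurd h H.irrefl⟩
  · rw [← toFn_pair G huv, ← toFn_pair H huv, h]

/-- **Main result.** For all `n ≥ r ≥ 2`, a family of graphs on `n` labelled vertices whose
pairwise symmetric differences have an independent `r`-set has at most
`2 ^ (n choose 2 - r^2/15)` members. -/
theorem result : ∀ r n : ℕ, 2 ≤ r → r ≤ n →
    ∀ F : Finset (SimpleGraph (Fin n)),
      (∀ G ∈ F, ∀ H ∈ F, G ≠ H → ∃ s : Finset (Fin n), (symmDiff G H).IsNIndepSet r s) →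
      (F.card : ℝ) ≤ (2 : ℝ) ^ ((n.choose 2 : ℝ) - (r : ℝ) ^ 2 / 15) := by
  intro r n hr hrn F hF
  have hn : 0 < n := by omega
  have huniv : inside (univ : Finset (Fin n)) = univ := by
    ext e; simp [mem_inside]
  have hcardE : (inside (univ : Finset (Fin n))).card = n.choose 2 := by
    rw [card_inside, card_univ, Fintype.card_fin]
  have hsupp : Supp (inside (univ : Finset (Fin n))) (F.image toFn) := by
    intro f _ e he
    rw [huniv] at he
    exact absurd (mem_univ e) he
  have hB := Bd_ex hn r (by omega) univ (F.image toFn) (F.image toFn) hsupp hsupp (by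
    intro f hf g hg
    obtain ⟨G, hG, rfl⟩ := mem_image.1 hf
    obtain ⟨H, hH, rfl⟩ := mem_image.1 hg
    by_cases hGH : G = H
    · obtain ⟨S, hSu, hS⟩ := exists_subset_card_eq (s := (univ : Finset (Fin n))) (n := r)
        (by rw [card_univ, Fintype.card_fin]; exact hrn)
      exact ⟨S, hSu, hS, fun e _ => by rw [hGH]⟩
    · obtain ⟨s, hs⟩ := hF G hG H hH hGH
      rw [SimpleGraph.isNIndepSet_iff] at hs
      refine ⟨s, subset_univ s, hs.2, ?_⟩
      rintro ⟨e, he⟩ hes
      rw [mem_inside] at hes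
      obtain ⟨u, v, huv, rfl⟩ := card_eq_two.1 he
      have hu : u ∈ s := hes (by simp)
      have hv : v ∈ s := hes (by simp)
      have h1 := hs.1 (mem_coe.2 hu) (mem_coe.2 hv) huv
      have h2 : G.Adj u v ↔ H.Adj u v := by
        simp only [symmDiff, SimpleGraph.sup_adj, SimpleGraph.sdiff_adj, not_or, not_and,
          not_not] at h1
        exact ⟨h1.1, h1.2⟩
      have h3 := toFn_pair G huv
      have h4 := toFn_pair H huv
      exact Bool.eq_iff_iff.2 (h3.trans (h2.trans h4.symm)))
  rw [card_image_of_injective F toFn_injective, hcardE] at hB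
  have hB' : ((F.card : ℝ) ^ 2) * 2 ^ (ex r) ≤ 4 ^ (n.choose 2) := by
    rw [pow_two]
    exact_mod_cast hB
  have h5 : (2 * (r : ℝ) ^ 2) ≤ 15 * (ex r : ℝ) := by
    exact_mod_cast T5 r hr
  have hpos : (0 : ℝ) ≤ (2 : ℝ) ^ ((n.choose 2 : ℝ) - (r : ℝ) ^ 2 / 15) := by positivity
  apply le_of_pow_le_pow_left₀ (n := 2) (by norm_num) hpos
  have h6 : ((2 : ℝ) ^ ((n.choose 2 : ℝ) - (r : ℝ) ^ 2 / 15)) ^ 2
      = (4 : ℝ) ^ (n.choose 2) / (2 : ℝ) ^ (2 * (r : ℝ) ^ 2 / 15) := by
    rw [← Real.rpow_natCast, ← Real.rpow_mul (by norm_num)]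
    have h7 : (4 : ℝ) ^ (n.choose 2) = (2 : ℝ) ^ (2 * (n.choose 2 : ℝ)) := by
      rw [Real.rpow_mul (by norm_num), Real.rpow_natCast]
      norm_num
    rw [h7, ← Real.rpow_sub (by norm_num)]
    congr 1
    push_cast
    ring
  rw [h6, le_div_iff₀ (by positivity)]
  refine le_trans ?_ hB'
  apply mul_le_mul_of_nonneg_left _ (by positivity)
  rw [← Real.rpow_natCast 2 (ex r)]
  apply Real.rpow_le_rpow_of_exponent_le (by norm_num)
  linarith

end Pool.Agent.Results.MP_64e56f_co.AllN
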