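import Pool.Agent.KFV.Final

set_option autoImplicit false

/-!
# The exact value of `A_5(n)` for all `n ≥ 5`
-/

namespace Pool.Agent.Results.MP_64e56f_co.FiveAllN

open Pool.Agent.KFV

/-- For every `n ≥ 5` the largest family of graphs on `n` labelled vertices in which the symmetric
difference of any two distinct members has an independent set of size `5` has exactly
`2^(C(n,2) - 10)` members. -/
theorem result : ∀ n : ℕ, 5 ≤ n →
    (∀ F : Finset (SimpleGraph (Fin n)),
      (∀ G ∈ F, ∀ H ∈ F, G ≠ H → ∃ s : Finset (Fin n), (symmDiff G H).IsNIndepSet 5 s) →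
      F.card ≤ 2 ^ (n.choose 2 - 10)) ∧
    (∃ F : Finset (SimpleGraph (Fin n)),
      (∀ G ∈ F, ∀ H ∈ F, G ≠ H → ∃ s : Finset (Fin n), (symmDiff G H).IsNIndepSet 5 s) ∧
      F.card = 2 ^ (n.choose 2 - 10)) :=
  final dat

end Pool.Agent.Results.MP_64e56f_co.FiveAllN
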