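import Mathlib

set_option autoImplicit false

namespace Pool.Agent.Results.MP_64e56f_co.LargeR

open Finset

open scoped Classical

/-- The pairs (2-element subsets) of `Fin n`. -/
abbrev Ed (n : ℕ) := {e : Finset (Fin n) // e.card = 2}

variable {n : ℕ}

/-- pairs inside a vertex set -/
noncomputable def inside (I : Finset (Fin n)) : Finset (Ed n) := univ.filter (fun e => e.1 ⊆ I)

lemma mem_inside {I : Finset (Fin n)} {e : Ed n} : e ∈ inside I ↔ e.1 ⊆ I := by simp [inside]

lemma card_inside (I : Finset (Fin n)) : (inside I).card = I.card.choose 2 := by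
  rw [← card_powersetCard]
  apply card_bij (fun e _ => e.1)
  · intro e he
    rw [mem_powersetCard]
    exact ⟨mem_inside.1 he, e.2⟩
  · intro a _ b _ h
    exact Subtype.ext h
  · intro s hs
    rw [mem_powersetCard] at hs
    exact ⟨⟨s, hs.2⟩, mem_inside.2 hs.1, rfl⟩

lemma inside_inter (I J : Finset (Fin n)) : inside I ∩ inside J = inside (I ∩ J) := by
  ext e
  simp [mem_inside, subset_inter_iff]

lemma inside_mono {I J : Finset (Fin n)} (h : I ⊆ J) : inside I ⊆ inside J := by
  intro e he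
  rw [mem_inside] at he ⊢
  exact he.trans h

lemma card_Ed : Fintype.card (Ed n) = n.choose 2 := by
  have h := card_inside (univ : Finset (Fin n))
  have h2 : inside (univ : Finset (Fin n)) = univ := by
    ext e; simp [mem_inside]
  rw [h2, card_univ, card_univ, Fintype.card_fin] at h
  exact h

/-- functions agreeing with `x` on `T` -/
noncomputable def cyl (T : Finset (Ed n)) (x : Ed n → Bool) : Finset (Ed n → Bool) :=
  univ.filter (fun f => ∀ e ∈ T, f e = x e)

lemma mem_cyl {T : Finset (Ed n)} {x f : Ed n → Bool} : f ∈ cyl T x ↔ ∀ e ∈ T, f e = x e := by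
  simp [cyl]

lemma card_cyl (T : Finset (Ed n)) (x : Ed n → Bool) :
    (cyl T x).card = 2 ^ (Fintype.card (Ed n) - T.card) := by
  have h : cyl T x = Fintype.piFinset (fun e => if e ∈ T then ({x e} : Finset Bool) else univ) := by
    ext f
    rw [mem_cyl, Fintype.mem_piFinset]
    constructor
    · intro hf e
      by_cases he : e ∈ T
      · simp [he, hf e he]
      · simp [he]
    · intro hf e he
      have := hf e
      simpa [he] using this
  rw [h, Fintype.card_piFinset]
  have h2 : ∀ e : Ed n, (if e ∈ T then ({x e} : Finset Bool) else univ).card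
      = if e ∈ T then 1 else 2 := by
    intro e
    split_ifs <;> simp
  simp only [h2]
  rw [prod_ite]
  simp only [prod_const_one, one_mul, prod_const]
  congr 1
  rw [filter_not, card_sdiff_of_subset (filter_subset _ _), card_univ]
  simp

/-- real version of the cardinality of a cylinder -/
lemma card_cyl_real (T : Finset (Ed n)) (x : Ed n → Bool) :
    ((cyl T x).card : ℝ) = 2 ^ (Fintype.card (Ed n)) / 2 ^ T.card := by
  rw [card_cyl]
  have hT : T.card ≤ Fintype.card (Ed n) := card_le_univ T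
  push_cast
  rw [eq_div_iff (by positivity), ← pow_add]
  congr 1
  omega

lemma card_inter_cyl_le (T U : Finset (Ed n)) (x y : Ed n → Bool) :
    ((cyl T x ∩ cyl U y).card : ℝ) ≤ 2 ^ (Fintype.card (Ed n)) / 2 ^ (T ∪ U).card := by
  rcases (cyl T x ∩ cyl U y).eq_empty_or_nonempty with h | ⟨f, hf⟩
  · rw [h]; simp; positivity
  · rw [mem_inter, mem_cyl, mem_cyl] at hf
    rw [← card_cyl_real (T ∪ U) f]
    norm_cast
    apply card_le_card
    intro g hg
    rw [mem_inter, mem_cyl, mem_cyl] at hg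
    rw [mem_cyl]
    intro e he
    rcases mem_union.1 he with he | he
    · rw [hg.1 e he, hf.1 e he]
    · rw [hg.2 e he, hf.2 e he]

lemma card_inter3_cyl_le (T U W : Finset (Ed n)) (x y w : Ed n → Bool) :
    (((cyl T x ∩ cyl U y) ∩ cyl W w).card : ℝ)
      ≤ 2 ^ (Fintype.card (Ed n)) / 2 ^ (T ∪ U ∪ W).card := by
  rcases ((cyl T x ∩ cyl U y) ∩ cyl W w).eq_empty_or_nonempty with h | ⟨f, hf⟩
  · rw [h]; simp; positivity
  · rw [mem_inter, mem_inter, mem_cyl, mem_cyl, mem_cyl] at hf
    rw [← card_cyl_real (T ∪ U ∪ W) f]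
    norm_cast
    apply card_le_card
    intro g hg
    rw [mem_inter, mem_inter, mem_cyl, mem_cyl, mem_cyl] at hg
    rw [mem_cyl]
    intro e he
    rcases mem_union.1 he with he | he
    · rcases mem_union.1 he with he | he
      · rw [hg.1.1 e he, hf.1.1 e he]
      · rw [hg.1.2 e he, hf.1.2 e he]
    · rw [hg.2 e he, hf.2 e he]

/-- number of pairs of an `r`-set meeting a fixed `i`-subset -/
def phi (r i : ℕ) : ℕ := r.choose 2 - (r - i).choose 2

lemma phi_add (r i : ℕ) : phi r i + (r - i).choose 2 = r.choose 2 := by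
  unfold phi
  have := Nat.choose_le_choose 2 (Nat.sub_le r i)
  omega

lemma two_choose (a : ℕ) : 2 * a.choose 2 + a = a * a := by
  induction a with
  | zero => simp
  | succ a ih =>
    rw [Nat.choose_succ_succ' a 1]
    simp only [Nat.choose_one_right]
    nlinarith

lemma phi_succ {r k : ℕ} (h : k + 1 ≤ r) : phi r (k + 1) = phi r k + (r - 1 - k) := by
  have h1 := phi_add r k
  have h2 := phi_add r (k + 1)
  have h3 : (r - k).choose 2 = (r - (k + 1)).choose 2 + (r - 1 - k) := by
    have : r - k = (r - (k + 1)) + 1 := by omega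
    rw [this]
    have h4 : (r - (k + 1) + 1).choose 2 = (r - (k + 1)).choose 1 + (r - (k + 1)).choose 2 :=
      Nat.choose_succ_succ' _ 1
    rw [h4, Nat.choose_one_right]
    omega
  omega

/-- closed form -/
lemma two_phi {r i : ℕ} (h : i ≤ r) : 2 * phi r i + i * i + i = 2 * r * i := by
  have h1 := phi_add r i
  have h2 := two_choose r
  have h3 := two_choose (r - i)
  obtain ⟨d, rfl⟩ := Nat.exists_eq_add_of_le h
  have : i + d - i = d := by omega
  rw [this] at h1 h3
  nlinarith

lemma phi_step {r i j m : ℕ} (hj : j ≤ m + 1) (hij : j ≤ i) (hi : i ≤ r) (hr : 5 * m + 4 ≤ r) :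
    phi r j + (2 * m + 1) * (i - j) ≤ phi r i := by
  have h1 := two_phi hi
  have h2 := two_phi (hij.trans hi)
  obtain ⟨d, rfl⟩ := Nat.exists_eq_add_of_le hij
  have : j + d - j = d := by omega
  rw [this]
  have h3 : d * (j + d + j + 1 + 2 * (2 * m + 1)) ≤ d * (2 * r) := by
    apply Nat.mul_le_mul_left
    omega
  nlinarith

/-- number of `J` with a given difference is at most `(2^(2m))^i` -/
lemma card_J_le {r m : ℕ} (I : Finset (Fin n)) (hI : I.card = r) (hn : n ≤ 2 ^ m) (i : ℕ) :
    (((powersetCard r (univ : Finset (Fin n))).filter (fun J => (I \ J).card = i)).card)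
      ≤ (2 ^ (2 * m)) ^ i := by
  have h1 : (((powersetCard r (univ : Finset (Fin n))).filter (fun J => (I \ J).card = i)).card)
      ≤ ((powersetCard i (univ : Finset (Fin n))) ×ˢ (powersetCard i (univ : Finset (Fin n)))).card := by
    apply card_le_card_of_injOn (fun J => (I \ J, J \ I))
    · intro J hJ
      have hJ' := mem_filter.1 (mem_coe.1 hJ)
      have hJr := (mem_powersetCard.1 hJ'.1).2
      have h3 : (J \ I).card = i := by
        have e1 := card_sdiff_add_card_inter I J
        have e2 := card_sdiff_add_card_inter J I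
        rw [inter_comm] at e2
        omega
      simp only [coe_product, Set.mem_prod, mem_coe, mem_powersetCard]
      exact ⟨⟨subset_univ _, hJ'.2⟩, ⟨subset_univ _, h3⟩⟩
    · intro J hJ K hK h
      simp only [Prod.mk.injEq] at h
      obtain ⟨ha, hb⟩ := h
      ext v
      by_cases hv : v ∈ I
      · have h1 : v ∈ I \ J ↔ v ∈ I \ K := by rw [ha]
        simp only [mem_sdiff, hv, true_and] at h1
        exact not_iff_not.1 h1
      · have h1 : v ∈ J \ I ↔ v ∈ K \ I := by rw [hb]
        simpa [mem_sdiff, hv] using h1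
  refine h1.trans ?_
  rw [card_product, card_powersetCard, card_univ, Fintype.card_fin]
  have h2 : n.choose i ≤ (2 ^ m) ^ i := (Nat.choose_le_pow n i).trans (Nat.pow_le_pow_left hn i)
  calc n.choose i * n.choose i ≤ (2 ^ m) ^ i * (2 ^ m) ^ i := Nat.mul_le_mul h2 h2
    _ = (2 ^ (2 * m)) ^ i := by rw [← mul_pow, ← pow_add]; congr 2; ring

lemma card_union_inside {r : ℕ} {I J : Finset (Fin n)} (hI : I.card = r) (hJ : J.card = r) :
    (inside I ∪ inside J).card = r.choose 2 + phi r (I \ J).card := by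
  have h1 := card_union_add_card_inter (inside I) (inside J)
  rw [inside_inter, card_inside, card_inside, card_inside, hI, hJ] at h1
  have h2 := card_sdiff_add_card_inter I J
  have h3 := phi_add r (I \ J).card
  have h4 : r - (I \ J).card = (I ∩ J).card := by omega
  rw [h4] at h3
  omega

/-- tail sum -/
lemma tail_sum {r m j : ℕ} (I : Finset (Fin n)) (hI : I.card = r) (hn : n ≤ 2 ^ m)
    (hj : j ≤ m + 1) (hr : 5 * m + 4 ≤ r) :
    ∑ J ∈ (powersetCard r (univ : Finset (Fin n))).filter (fun J => j ≤ (I \ J).card),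
      (1 : ℝ) / 2 ^ phi r (I \ J).card ≤ 2 * (2 ^ (2 * m)) ^ j / 2 ^ phi r j := by
  have h1 : ∑ J ∈ (powersetCard r (univ : Finset (Fin n))).filter (fun J => j ≤ (I \ J).card),
      (1 : ℝ) / 2 ^ phi r (I \ J).card
      = ∑ i ∈ Finset.Ico j (r + 1), ∑ J ∈ ((powersetCard r (univ : Finset (Fin n))).filter
          (fun J => j ≤ (I \ J).card)).filter (fun J => (I \ J).card = i),
          (1 : ℝ) / 2 ^ phi r (I \ J).card := by
    rw [sum_fiberwise_of_maps_to]
    intro J hJ
    rw [mem_filter] at hJ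
    rw [Finset.mem_Ico]
    refine ⟨hJ.2, ?_⟩
    have : (I \ J).card ≤ I.card := card_le_card sdiff_subset
    omega
  rw [h1]
  have h2 : ∀ i ∈ Finset.Ico j (r + 1), ∑ J ∈ ((powersetCard r (univ : Finset (Fin n))).filter
          (fun J => j ≤ (I \ J).card)).filter (fun J => (I \ J).card = i),
          (1 : ℝ) / 2 ^ phi r (I \ J).card ≤
          (2 ^ (2 * m)) ^ j / 2 ^ phi r j * (1 / 2) ^ (i - j) := by
    intro i hi
    rw [Finset.mem_Ico] at hi
    have e1 : ∑ J ∈ ((powersetCard r (univ : Finset (Fin n))).filter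
          (fun J => j ≤ (I \ J).card)).filter (fun J => (I \ J).card = i),
          (1 : ℝ) / 2 ^ phi r (I \ J).card = ∑ J ∈ ((powersetCard r (univ : Finset (Fin n))).filter
          (fun J => j ≤ (I \ J).card)).filter (fun J => (I \ J).card = i),
          (1 : ℝ) / 2 ^ phi r i := by
      apply sum_congr rfl
      intro J hJ
      rw [(mem_filter.1 hJ).2]
    rw [e1, sum_const, nsmul_eq_mul]
    have e2 : (((powersetCard r (univ : Finset (Fin n))).filter
          (fun J => j ≤ (I \ J).card)).filter (fun J => (I \ J).card = i)).card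
          ≤ (2 ^ (2 * m)) ^ i := by
      refine le_trans (card_le_card ?_) (card_J_le I hI hn i)
      intro J hJ
      rw [mem_filter, mem_filter] at hJ
      rw [mem_filter]
      exact ⟨hJ.1.1, hJ.2⟩
    have e3 : ((((powersetCard r (univ : Finset (Fin n))).filter
          (fun J => j ≤ (I \ J).card)).filter (fun J => (I \ J).card = i)).card : ℝ)
          ≤ (2 ^ (2 * m)) ^ i := by exact_mod_cast e2
    have e4 := phi_step hj hi.1 (by omega : i ≤ r) hr
    calc ((((powersetCard r (univ : Finset (Fin n))).filter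
          (fun J => j ≤ (I \ J).card)).filter (fun J => (I \ J).card = i)).card : ℝ)
            * (1 / 2 ^ phi r i)
        ≤ (2 ^ (2 * m)) ^ i * (1 / 2 ^ (phi r j + (2 * m + 1) * (i - j))) := by
          apply mul_le_mul e3 _ (by positivity) (by positivity)
          apply one_div_le_one_div_of_le (by positivity)
          exact pow_le_pow_right₀ (by norm_num) e4
      _ = (2 ^ (2 * m)) ^ j / 2 ^ phi r j * (1 / 2) ^ (i - j) := by
          have e5 : i = j + (i - j) := by omega
          conv_lhs => rw [e5]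
          have e6 : j + (i - j) - j = i - j := by omega
          rw [e6]
          rw [pow_add (2 ^ (2 * m) : ℝ), pow_add (2 : ℝ) (phi r j), pow_mul (2 : ℝ) (2 * m + 1),
            pow_succ (2 : ℝ) (2 * m), mul_pow, one_div_pow]
          field_simp
  refine (sum_le_sum h2).trans ?_
  rw [← mul_sum, sum_Ico_eq_sum_range]
  have h3 : ∑ k ∈ range (r + 1 - j), ((1 : ℝ) / 2) ^ (j + k - j) ≤ 2 := by
    have : ∀ k ∈ range (r + 1 - j), ((1 : ℝ) / 2) ^ (j + k - j) = (1 / 2) ^ k := by
      intro k _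
      congr 1
      omega
    rw [sum_congr rfl this]
    exact sum_geometric_two_le _
  calc (2 ^ (2 * m)) ^ j / 2 ^ phi r j * ∑ k ∈ range (r + 1 - j), ((1 : ℝ) / 2) ^ (j + k - j)
      ≤ (2 ^ (2 * m)) ^ j / 2 ^ phi r j * 2 := by
        apply mul_le_mul_of_nonneg_left h3 (by positivity)
    _ = 2 * (2 ^ (2 * m)) ^ j / 2 ^ phi r j := by ring

/-- counting lemma: few functions in the cylinder of `G0` on `I` agree with `G` on an `r`-set
which misses at least `j` elements of `I` -/
lemma count_far {r m j : ℕ} (I : Finset (Fin n)) (hI : I.card = r) (hn : n ≤ 2 ^ m)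
    (hj : j ≤ m + 1) (hr : 5 * m + 4 ≤ r) (G0 G : Ed n → Bool) (X : Finset (Ed n → Bool))
    (hX : ∀ f ∈ X, f ∈ cyl (inside I) G0 ∧
      ∃ J : Finset (Fin n), J.card = r ∧ j ≤ (I \ J).card ∧ f ∈ cyl (inside J) G) :
    (X.card : ℝ) ≤ 2 ^ (Fintype.card (Ed n)) / 2 ^ (r.choose 2)
      * (2 * (2 ^ (2 * m)) ^ j / 2 ^ phi r j) := by
  have h1 : X ⊆ ((powersetCard r (univ : Finset (Fin n))).filter
      (fun J => j ≤ (I \ J).card)).biUnion (fun J => cyl (inside I) G0 ∩ cyl (inside J) G) := by
    intro f hf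
    obtain ⟨h2, J, hJ, hJ2, hJ3⟩ := hX f hf
    rw [mem_biUnion]
    exact ⟨J, mem_filter.2 ⟨mem_powersetCard.2 ⟨subset_univ _, hJ⟩, hJ2⟩, mem_inter.2 ⟨h2, hJ3⟩⟩
  have h2 : (X.card : ℝ) ≤ ∑ J ∈ (powersetCard r (univ : Finset (Fin n))).filter
      (fun J => j ≤ (I \ J).card), ((cyl (inside I) G0 ∩ cyl (inside J) G).card : ℝ) := by
    exact_mod_cast (card_le_card h1).trans card_biUnion_le
  have h3 : ∑ J ∈ (powersetCard r (univ : Finset (Fin n))).filter
      (fun J => j ≤ (I \ J).card), ((cyl (inside I) G0 ∩ cyl (inside J) G).card : ℝ)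
      ≤ ∑ J ∈ (powersetCard r (univ : Finset (Fin n))).filter (fun J => j ≤ (I \ J).card),
      2 ^ (Fintype.card (Ed n)) / 2 ^ (r.choose 2) * ((1 : ℝ) / 2 ^ phi r (I \ J).card) := by
    apply sum_le_sum
    intro J hJ
    rw [mem_filter, mem_powersetCard] at hJ
    refine (card_inter_cyl_le _ _ _ _).trans (le_of_eq ?_)
    rw [card_union_inside hI hJ.1.2, pow_add]
    field_simp
  rw [← mul_sum] at h3
  refine h2.trans (h3.trans ?_)
  apply mul_le_mul_of_nonneg_left (tail_sum I hI hn hj hr) (by positivity)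


/-- the members of `F` agreeing with `X` on `T` -/
noncomputable def sec (F : Finset (Ed n → Bool)) (T : Finset (Ed n)) (X : Ed n → Bool) :
    Finset (Ed n → Bool) := F.filter (fun f => f ∈ cyl T X)

lemma mem_sec {F : Finset (Ed n → Bool)} {T : Finset (Ed n)} {X f : Ed n → Bool} :
    f ∈ sec F T X ↔ f ∈ F ∧ ∀ e ∈ T, f e = X e := by
  rw [sec, mem_filter, mem_cyl]

/-- fibre bound: if every class on `inside J` has at most `M` members, then the members agreeing
with `X` on `T ⊆ inside J` number at most `M 2^(R - |T|)`. -/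
lemma fibre_bound {F : Finset (Ed n → Bool)} {M : ℕ} {U T : Finset (Ed n)}
    (hM : ∀ f ∈ F, (sec F U f).card ≤ M) (hT : T ⊆ U) (X : Ed n → Bool) :
    (sec F T X).card ≤ M * 2 ^ (U.card - T.card) := by
  have h1 : (sec F T X).card ≤ M * ((sec F T X).image
      (fun f => fun e : {e // e ∈ U \ T} => f e.1)).card := by
    apply card_le_mul_card_image
    intro g hg
    rw [mem_image] at hg
    obtain ⟨f, hf, rfl⟩ := hg
    refine le_trans (card_le_card ?_) (hM f (mem_sec.1 hf).1)
    intro f' hf'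
    rw [mem_filter, mem_sec] at hf'
    rw [mem_sec]
    refine ⟨hf'.1.1, ?_⟩
    intro e he
    by_cases heT : e ∈ T
    · rw [hf'.1.2 e heT, (mem_sec.1 hf).2 e heT]
    · exact congrFun hf'.2 ⟨e, mem_sdiff.2 ⟨he, heT⟩⟩
  refine h1.trans (Nat.mul_le_mul_left _ ?_)
  refine (card_le_univ _).trans ?_
  rw [Fintype.card_fun, Fintype.card_bool, Fintype.card_coe, card_sdiff_of_subset hT]

lemma natA {m k r : ℕ} (hkm : k ≤ m) (hr : 4 * m ^ 2 + 3 * m + 4 ≤ r) :
    4 * (m * k) + 2 * m + 3 + k + 1 ≤ r := by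
  have : m * k ≤ m ^ 2 := by rw [pow_two]; exact Nat.mul_le_mul_left _ hkm
  omega

lemma natB {m k r : ℕ} (hk : 1 ≤ k) (hkr : k ≤ r) (hkm : k ≤ m) (hr : 4 * m ^ 2 + 3 * m + 4 ≤ r) :
    3 * (m * k) + 2 ≤ phi r k := by
  have h1 := two_phi hkr
  have h2 : m * 1 ≤ m * m := Nat.mul_le_mul_left _ (hk.trans hkm)
  have h3 : (4 * (m * m) + 3 * m + 4) * k ≤ r * k := by
    apply Nat.mul_le_mul_right
    rw [pow_two] at hr
    exact hr
  have h4 : k * k ≤ m * k := Nat.mul_le_mul_right _ hkm
  have h5 : k * 1 ≤ k * k := Nat.mul_le_mul_left _ hk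
  have h6 : m * k ≤ m * m * k := Nat.mul_le_mul_right _ (by omega)
  have h9 : 1 * 1 ≤ m * k := Nat.mul_le_mul (by omega) hk
  have h7 : 2 * r * k = 2 * (r * k) := by ring
  have h8 : (4 * (m * m) + 3 * m + 4) * k = 4 * (m * m * k) + 3 * (m * k) + 4 * k := by ring
  omega

lemma natC {m r : ℕ} (hmr : m + 1 ≤ r) (hr : 4 * m ^ 2 + 3 * m + 4 ≤ r) :
    m * r + 1 + 2 * m * (m + 1) ≤ phi r (m + 1) := by
  have := two_phi hmr
  nlinarith

lemma realC {z : ℝ} {m r : ℕ} (hz : 0 < z) (hmr : m + 1 ≤ r) (hr : 4 * m ^ 2 + 3 * m + 4 ≤ r) :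
    (2 : ℝ) ^ (m * r) * (z * (2 * (2 ^ (2 * m)) ^ (m + 1) / 2 ^ phi r (m + 1))) ≤ z := by
  have h6 := natC hmr hr
  have e1 : (2 : ℝ) ^ (m * r) * (z * (2 * (2 ^ (2 * m)) ^ (m + 1) / 2 ^ phi r (m + 1)))
      = z * (2 ^ (m * r + 1 + 2 * m * (m + 1)) / 2 ^ phi r (m + 1)) := by
    rw [pow_add, pow_add, pow_mul (2 : ℝ) (2 * m)]
    ring
  rw [e1]
  have e2 : (2 : ℝ) ^ (m * r + 1 + 2 * m * (m + 1)) / 2 ^ phi r (m + 1) ≤ 1 := by
    rw [div_le_one (by positivity)]
    exact pow_le_pow_right₀ (by norm_num) h6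
  nlinarith

lemma realBad {c z M b : ℝ} {m k r : ℕ} (hz : 0 < z) (hc0 : 0 ≤ c) (hcle : c ≤ 2 ^ (m * k))
    (h : 4 * (m * k) + 2 + k + 1 ≤ r)
    (hM : M ≤ z * (2 * (2 ^ (2 * m)) ^ k / 2 ^ phi r k))
    (hb : b ≤ c * (M * (2 ^ phi r k / 2 ^ (r - k - 1)))) : c * b ≤ z / 2 := by
  calc c * b ≤ c * (c * (M * (2 ^ phi r k / 2 ^ (r - k - 1)))) :=
        mul_le_mul_of_nonneg_left hb hc0
    _ ≤ c * (c * ((z * (2 * (2 ^ (2 * m)) ^ k / 2 ^ phi r k)) *
          (2 ^ phi r k / 2 ^ (r - k - 1)))) := by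
        apply mul_le_mul_of_nonneg_left _ hc0
        apply mul_le_mul_of_nonneg_left _ hc0
        exact mul_le_mul_of_nonneg_right hM (by positivity)
    _ = c * c * (z * (2 * (2 ^ (2 * m)) ^ k / 2 ^ (r - k - 1))) := by
        field_simp
    _ ≤ 2 ^ (m * k) * 2 ^ (m * k) * (z * (2 * (2 ^ (2 * m)) ^ k / 2 ^ (r - k - 1))) := by
        apply mul_le_mul_of_nonneg_right _ (by positivity)
        exact mul_le_mul hcle hcle hc0 (by positivity)
    _ = z * (2 ^ (4 * (m * k) + 1) / 2 ^ (r - k - 1)) := by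
        rw [← pow_mul (2 : ℝ) (2 * m) k]
        have : 4 * (m * k) + 1 = m * k + m * k + (1 + 2 * m * k) := by ring
        rw [this, pow_add, pow_add, pow_add, pow_one]
        ring
    _ ≤ z * (1 / 2) := by
        apply mul_le_mul_of_nonneg_left _ hz.le
        rw [div_le_div_iff₀ (by positivity) (by norm_num), ← pow_succ, one_mul]
        apply pow_le_pow_right₀ (by norm_num)
        omega
    _ = z / 2 := by ring

lemma realGood {c z M g : ℝ} {m k r : ℕ} (hz : 0 < z) (hg : 0 ≤ g) (hcle : c ≤ 2 ^ (m * k))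
    (h : 3 * (m * k) + 2 ≤ phi r k)
    (hM : M ≤ z * (2 * (2 ^ (2 * m)) ^ k / 2 ^ phi r k))
    (hgM : g ≤ M) : c * g ≤ z / 2 := by
  calc c * g ≤ 2 ^ (m * k) * (z * (2 * (2 ^ (2 * m)) ^ k / 2 ^ phi r k)) := by
        apply mul_le_mul hcle (hgM.trans hM) hg (by positivity)
    _ = z * (2 ^ (3 * (m * k) + 1) / 2 ^ phi r k) := by
        rw [← pow_mul (2 : ℝ) (2 * m) k]
        have : 3 * (m * k) + 1 = m * k + (1 + 2 * m * k) := by ring
        rw [this, pow_add, pow_add, pow_one]
        ring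
    _ ≤ z * (1 / 2) := by
        apply mul_le_mul_of_nonneg_left _ hz.le
        rw [div_le_div_iff₀ (by positivity) (by norm_num), ← pow_succ, one_mul]
        exact pow_le_pow_right₀ (by norm_num) (by omega)
    _ = z / 2 := by ring

lemma realFinal {c d z M : ℝ} {m k r : ℕ} (hz : 0 < z) (hc0 : 0 ≤ c) (hd0 : 0 ≤ d)
    (hcle : c ≤ 2 ^ (m * k)) (hdle : d ≤ 2 ^ (m * k))
    (h : 4 * (m * k) + 2 * m + 3 + k + 1 ≤ r) (hphik : phi r (k + 1) = phi r k + (r - 1 - k))
    (h4 : M ≤ d * (z * (2 * (2 ^ (2 * m)) ^ (k + 1) / 2 ^ phi r (k + 1))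
        + d * (z / (2 ^ phi r k * 2 ^ (r - 1))))
      + z * (2 * (2 ^ (2 * m)) ^ (k + 1) / 2 ^ phi r (k + 1))) :
    c * (M * 2 ^ phi r k) ≤ z := by
  set δ : ℝ := 2 * (2 ^ (2 * m)) ^ (k + 1) / 2 ^ phi r (k + 1) with hδ
  have e1 : c * (M * 2 ^ phi r k) ≤
      c * ((d * (z * δ + d * (z / (2 ^ phi r k * 2 ^ (r - 1)))) + z * δ) * 2 ^ phi r k) := by
    apply mul_le_mul_of_nonneg_left _ hc0
    exact mul_le_mul_of_nonneg_right h4 (by positivity)
  have e2 : c * ((d * (z * δ + d * (z / (2 ^ phi r k * 2 ^ (r - 1)))) + z * δ) * 2 ^ phi r k)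
      = z * (c * (1 + d) * (δ * 2 ^ phi r k) + c * d * d / 2 ^ (r - 1)) := by
    field_simp
    ring
  have e3 : δ * 2 ^ phi r k = 2 * (2 ^ (2 * m)) ^ (k + 1) / 2 ^ (r - 1 - k) := by
    rw [hδ, hphik, pow_add (2 : ℝ) (phi r k)]
    field_simp
  have e4 : c * (1 + d) * (δ * 2 ^ phi r k) ≤ 1 / 2 := by
    rw [e3]
    have f1 : (1 : ℝ) + d ≤ 2 * 2 ^ (m * k) := by
      have : (1 : ℝ) ≤ 2 ^ (m * k) := one_le_pow₀ (by norm_num)
      linarith
    calc c * (1 + d) * (2 * (2 ^ (2 * m)) ^ (k + 1) / 2 ^ (r - 1 - k))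
        ≤ (2 ^ (m * k) * (2 * 2 ^ (m * k))) * (2 * (2 ^ (2 * m)) ^ (k + 1) / 2 ^ (r - 1 - k)) := by
          apply mul_le_mul_of_nonneg_right _ (by positivity)
          exact mul_le_mul hcle f1 (by positivity) (by positivity)
      _ = 2 ^ (4 * (m * k) + 2 * m + 2) / 2 ^ (r - 1 - k) := by
          rw [← pow_mul (2 : ℝ) (2 * m) (k + 1)]
          have : 4 * (m * k) + 2 * m + 2 = m * k + (1 + m * k) + (1 + 2 * m * (k + 1)) := by ring
          rw [this, pow_add, pow_add, pow_add, pow_add, pow_one]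
          ring
      _ ≤ 1 / 2 := by
          rw [div_le_div_iff₀ (by positivity) (by norm_num), ← pow_succ, one_mul]
          apply pow_le_pow_right₀ (by norm_num)
          omega
  have e5 : c * d * d / 2 ^ (r - 1) ≤ 1 / 2 := by
    calc c * d * d / 2 ^ (r - 1) ≤ 2 ^ (m * k) * 2 ^ (m * k) * 2 ^ (m * k) / 2 ^ (r - 1) := by
          apply div_le_div_of_nonneg_right _ (by positivity)
          apply mul_le_mul _ hdle hd0 (by positivity)
          exact mul_le_mul hcle hdle hd0 (by positivity)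
      _ = 2 ^ (3 * (m * k)) / 2 ^ (r - 1) := by
          have : 3 * (m * k) = m * k + m * k + m * k := by ring
          rw [this, pow_add, pow_add]
      _ ≤ 1 / 2 := by
          rw [div_le_div_iff₀ (by positivity) (by norm_num), ← pow_succ, one_mul]
          apply pow_le_pow_right₀ (by norm_num)
          omega
  refine e1.trans ?_
  rw [e2]
  nlinarith

theorem core {m r : ℕ} (hrn : r ≤ n) (hn : n ≤ 2 ^ m) (hr : 4 * m ^ 2 + 3 * m + 4 ≤ r)
    (F : Finset (Ed n → Bool))
    (hF : ∀ f ∈ F, ∀ g ∈ F, f ≠ g → ∃ J : Finset (Fin n), J.card = r ∧ ∀ e ∈ inside J, f e = g e) :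
    F.card ≤ 2 ^ (n.choose 2 - r.choose 2) := by
  by_contra hcon
  push Not at hcon
  have hr5 : 5 * m + 4 ≤ r := by
    have : m ≤ m ^ 2 := Nat.le_self_pow (by norm_num) m
    omega
  have hNn : Fintype.card (Ed n) = n.choose 2 := card_Ed
  have hRN : r.choose 2 ≤ Fintype.card (Ed n) := by
    rw [hNn]; exact Nat.choose_le_choose 2 hrn
  obtain ⟨z, hz⟩ : ∃ z : ℝ, z = 2 ^ (Fintype.card (Ed n)) / 2 ^ (r.choose 2) := ⟨_, rfl⟩
  have hzpos : 0 < z := by rw [hz]; positivity
  have hzF : z < F.card := by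
    have : z = ((2 ^ (n.choose 2 - r.choose 2) : ℕ) : ℝ) := by
      rw [hz, div_eq_iff (by positivity)]
      push_cast
      rw [← pow_add, ← hNn]
      congr 1
      omega
    rw [this]
    exact_mod_cast hcon
  have hFne : F.Nonempty := by
    rw [← card_pos]; exact lt_of_le_of_lt (Nat.zero_le _) hcon
  have hPne : (powersetCard r (univ : Finset (Fin n))).Nonempty := by
    rw [powersetCard_nonempty, card_univ, Fintype.card_fin]
    exact hrn
  -- choose the maximal class
  obtain ⟨⟨G0, I⟩, hGI, hmax⟩ := exists_max_image (F ×ˢ powersetCard r (univ : Finset (Fin n)))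
    (fun p => (sec F (inside p.2) p.1).card) (hFne.product hPne)
  rw [mem_product] at hGI
  obtain ⟨hG0, hI0⟩ := hGI
  simp only at hG0 hI0 hmax
  have hI : I.card = r := (mem_powersetCard.1 hI0).2
  obtain ⟨M, hM⟩ : ∃ M : ℕ, M = (sec F (inside I) G0).card := ⟨_, rfl⟩
  have hMax : ∀ f ∈ F, ∀ J : Finset (Fin n), J.card = r → (sec F (inside J) f).card ≤ M := by
    intro f hf J hJ
    rw [hM]
    exact hmax (f, J) (mem_product.2 ⟨hf, mem_powersetCard.2 ⟨subset_univ _, hJ⟩⟩)
  -- the covering number `k`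
  have hexk : ∃ k, ∀ G ∈ F, ∃ A ⊆ I, A.card = k ∧ ∀ e ∈ inside (I \ A), G e = G0 e := by
    refine ⟨r, fun G _ => ⟨I, Subset.rfl, hI, ?_⟩⟩
    intro e he
    rw [mem_inside, sdiff_self, bot_eq_empty, subset_empty] at he
    have := e.2
    rw [he] at this
    simp at this
  obtain ⟨k, hkspec, hkmin⟩ : ∃ k, (∀ G ∈ F, ∃ A ⊆ I, A.card = k ∧
      ∀ e ∈ inside (I \ A), G e = G0 e) ∧
      ∀ k' < k, ¬ ∀ G ∈ F, ∃ A ⊆ I, A.card = k' ∧ ∀ e ∈ inside (I \ A), G e = G0 e :=
    ⟨Nat.find hexk, Nat.find_spec hexk, fun k' h => Nat.find_min hexk h⟩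
  have hkr : k ≤ r := by
    obtain ⟨A, hA, hAk, _⟩ := hkspec G0 hG0
    rw [← hAk, ← hI]
    exact card_le_card hA
  have hk0 : k ≠ 0 := by
    intro h0
    have h1 : F ⊆ cyl (inside I) G0 := by
      intro G hG
      obtain ⟨A, hA, hAk, hA2⟩ := hkspec G hG
      rw [h0, card_eq_zero] at hAk
      rw [hAk, sdiff_empty] at hA2
      exact mem_cyl.2 hA2
    have h2 : (F.card : ℝ) ≤ z := by
      refine (Nat.cast_le.2 (card_le_card h1)).trans (le_of_eq ?_)
      rw [card_cyl_real, card_inside, hI, hz]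
    linarith
  -- Claim 1
  obtain ⟨Gw, hGwF, hGw⟩ : ∃ G ∈ F, ¬ ∃ A ⊆ I, A.card = k - 1 ∧
      ∀ e ∈ inside (I \ A), G e = G0 e := by
    have := hkmin (k - 1) (by omega)
    push Not at this
    obtain ⟨G, hG, h⟩ := this
    exact ⟨G, hG, by push Not; exact h⟩
  have hGwfar : ∀ A ⊆ I, (∀ e ∈ inside (I \ A), Gw e = G0 e) → k ≤ A.card := by
    intro A hA hAe
    by_contra hlt
    push Not at hlt
    apply hGw
    obtain ⟨A', hAA', hA'I, hA'c⟩ := exists_subsuperset_card_eq hA (by omega : A.card ≤ k - 1)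
      (by omega : k - 1 ≤ I.card)
    refine ⟨A', hA'I, hA'c, ?_⟩
    intro e he
    exact hAe e (inside_mono (sdiff_subset_sdiff Subset.rfl hAA') he)
  have hClaim1 : ∀ j ≤ k, j ≤ m + 1 → (M : ℝ) ≤ z * (2 * (2 ^ (2 * m)) ^ j / 2 ^ phi r j) := by
    intro j hjk hjm
    rw [hM, hz]
    apply count_far I hI hn hjm hr5 G0 Gw
    intro f hf
    rw [mem_sec] at hf
    refine ⟨mem_cyl.2 hf.2, ?_⟩
    have hne : f ≠ Gw := by
      intro heq
      have := hGwfar ∅ (empty_subset _) (by
        intro e he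
        rw [sdiff_empty] at he
        rw [← heq]
        exact hf.2 e he)
      rw [card_empty] at this
      omega
    obtain ⟨J, hJ, hJe⟩ := hF f hf.1 Gw hGwF hne
    refine ⟨J, hJ, hjk.trans ?_, mem_cyl.2 hJe⟩
    apply hGwfar (I \ J) sdiff_subset
    intro e he
    rw [sdiff_sdiff_right_self] at he
    rw [← hJe e (inside_mono inter_subset_right he)]
    exact hf.2 e (inside_mono inter_subset_left he)
  -- Claim 2
  have hkm : k ≤ m := by
    by_contra hlt
    push Not at hlt
    have h1 := hClaim1 (m + 1) hlt le_rfl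
    have h2 : F ⊆ (powersetCard r (univ : Finset (Fin n))).biUnion (fun J => sec F (inside J) G0) := by
      intro G hG
      rw [mem_biUnion]
      by_cases heq : G = G0
      · exact ⟨I, hI0, mem_sec.2 ⟨hG, fun e _ => by rw [heq]⟩⟩
      · obtain ⟨J, hJ, hJe⟩ := hF G hG G0 hG0 heq
        exact ⟨J, mem_powersetCard.2 ⟨subset_univ _, hJ⟩, mem_sec.2 ⟨hG, hJe⟩⟩
    have h3 : F.card ≤ n.choose r * M := by
      refine (card_le_card h2).trans (card_biUnion_le.trans ?_)
      refine (sum_le_card_nsmul _ _ M ?_).trans ?_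
      · intro J hJ
        exact hMax G0 hG0 J (mem_powersetCard.1 hJ).2
      · rw [card_powersetCard, card_univ, Fintype.card_fin, smul_eq_mul]
    have h4 : n.choose r ≤ 2 ^ (m * r) := by
      refine (Nat.choose_le_pow n r).trans ?_
      rw [pow_mul]
      exact Nat.pow_le_pow_left hn r
    have h5 : (F.card : ℝ) ≤ 2 ^ (m * r) * (z * (2 * (2 ^ (2 * m)) ^ (m + 1) / 2 ^ phi r (m + 1))) := by
      calc (F.card : ℝ) ≤ (n.choose r : ℝ) * M := by exact_mod_cast h3
        _ ≤ 2 ^ (m * r) * (z * (2 * (2 ^ (2 * m)) ^ (m + 1) / 2 ^ phi r (m + 1))) := by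
          apply mul_le_mul _ h1 (by positivity) (by positivity)
          exact_mod_cast h4
    have h7 := realC hzpos (show m + 1 ≤ r by omega) hr
    linarith
  have hk1 : 1 ≤ k := by omega
  have hkr1 : k + 1 ≤ r := by omega
  -- the sets `F_A`
  have hcardIA : ∀ A ⊆ I, A.card = k → (I \ A).card = r - k := by
    intro A hA hAk
    rw [card_sdiff_of_subset hA, hI, hAk]
  have hphiR : phi r k ≤ r.choose 2 := Nat.sub_le _ _
  have hFAle : ∀ A ∈ powersetCard k I, ((sec F (inside (I \ A)) G0)).card ≤ M * 2 ^ phi r k := by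
    intro A hA
    rw [mem_powersetCard] at hA
    have h1 := fibre_bound (M := M) (U := inside I) (T := inside (I \ A)) (F := F)
      (fun f hf => hMax f hf I hI) (inside_mono sdiff_subset) G0
    refine h1.trans (le_of_eq ?_)
    rw [card_inside, card_inside, hI, hcardIA A hA.1 hA.2]
    rfl
  have hFcov : F ⊆ (powersetCard k I).biUnion (fun A => sec F (inside (I \ A)) G0) := by
    intro G hG
    obtain ⟨A, hA, hAk, hAe⟩ := hkspec G hG
    rw [mem_biUnion]
    exact ⟨A, mem_powersetCard.2 ⟨hA, hAk⟩, mem_sec.2 ⟨hG, hAe⟩⟩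
  have hFsum : F.card ≤ ∑ A ∈ powersetCard k I, ((sec F (inside (I \ A)) G0)).card :=
    (card_le_card hFcov).trans card_biUnion_le
  have hii : F.card ≤ r.choose k * (M * 2 ^ phi r k) := by
    refine hFsum.trans ((sum_le_card_nsmul _ _ _ hFAle).trans ?_)
    rw [card_powersetCard, hI, smul_eq_mul]
  obtain ⟨A, hA0, hAmax⟩ : ∃ A ∈ powersetCard k I, F.card ≤ r.choose k * ((sec F (inside (I \ A)) G0)).card := by
    by_contra hno
    push Not at hno
    have hne : (powersetCard k I).Nonempty := by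
      rw [powersetCard_nonempty, hI]; exact hkr
    obtain ⟨A, hA, hAm⟩ := exists_max_image (powersetCard k I) (fun A => ((sec F (inside (I \ A)) G0)).card) hne
    have h1 := hno A hA
    have h2 : F.card ≤ r.choose k * ((sec F (inside (I \ A)) G0)).card := by
      refine hFsum.trans ((sum_le_card_nsmul _ _ _ (fun B hB => hAm B hB)).trans ?_)
      rw [card_powersetCard, hI, smul_eq_mul]
    omega
  have hA := mem_powersetCard.1 hA0
  -- Bad and Good
  obtain ⟨Bad, hBad⟩ : ∃ Bad, Bad = ((sec F (inside (I \ A)) G0)).filter (fun f => ∃ A' ∈ powersetCard k I, A' ≠ A ∧ f ∈ sec F (inside (I \ A')) G0)  := ⟨_, rfl⟩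
  obtain ⟨Good, hGood⟩ : ∃ Good, Good = ((sec F (inside (I \ A)) G0)) \ Bad  := ⟨_, rfl⟩
  have hBadle : (Bad.card : ℝ) ≤ r.choose k * (M * (2 ^ phi r k / 2 ^ (r - k - 1))) := by
    have h1 : Bad ⊆ ((powersetCard k I).erase A).biUnion
        (fun A' => sec F (inside (I \ A) ∪ inside (I \ A')) G0) := by
      intro f hf
      rw [hBad, mem_filter] at hf
      obtain ⟨hfA, A', hA', hne, hfA'⟩ := hf
      rw [mem_biUnion]
      refine ⟨A', mem_erase.2 ⟨hne, hA'⟩, mem_sec.2 ⟨(mem_sec.1 hfA).1, ?_⟩⟩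
      intro e he
      rcases mem_union.1 he with he | he
      · exact (mem_sec.1 hfA).2 e he
      · exact (mem_sec.1 hfA').2 e he
    have h2 : ∀ A' ∈ (powersetCard k I).erase A,
        ((sec F (inside (I \ A) ∪ inside (I \ A')) G0).card : ℝ)
          ≤ M * (2 ^ phi r k / 2 ^ (r - k - 1)) := by
      intro A' hA'
      rw [mem_erase] at hA'
      have hA'2 := mem_powersetCard.1 hA'.2
      have h3 := fibre_bound (M := M) (U := inside I) (T := inside (I \ A) ∪ inside (I \ A'))
        (F := F) (fun f hf => hMax f hf I hI)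
        (union_subset (inside_mono sdiff_subset) (inside_mono sdiff_subset)) G0
      have h4 := card_union_add_card_inter (inside (I \ A)) (inside (I \ A'))
      rw [inside_inter, card_inside, card_inside, card_inside, hcardIA A hA.1 hA.2,
        hcardIA A' hA'2.1 hA'2.2] at h4
      have h5 : ((I \ A) ∩ (I \ A')).card ≤ r - k - 1 := by
        have h6 : ((I \ A) ∩ (I \ A')).card < (I \ A).card := by
          apply card_lt_card
          refine ⟨inter_subset_left, ?_⟩
          intro hsub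
          apply hA'.1
          have h7 : I \ A ⊆ I \ A' := fun v hv => (mem_inter.1 (hsub hv)).2
          have h8 : I \ A = I \ A' := eq_of_subset_of_card_le h7 (by
            rw [hcardIA A hA.1 hA.2, hcardIA A' hA'2.1 hA'2.2])
          have h9 : I \ (I \ A) = I \ (I \ A') := by rw [h8]
          rw [Finset.sdiff_sdiff_eq_self hA.1, Finset.sdiff_sdiff_eq_self hA'2.1] at h9
          exact h9.symm
        rw [hcardIA A hA.1 hA.2] at h6
        omega
      have h6 := Nat.choose_le_choose 2 h5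
      have h7 : (r - k).choose 2 = (r - k - 1).choose 2 + (r - k - 1) := by
        have e1 : (r - k - 1 + 1).choose 2 = (r - k - 1).choose 1 + (r - k - 1).choose 2 :=
          Nat.choose_succ_succ' _ 1
        rw [Nat.choose_one_right] at e1
        have e2 : r - k - 1 + 1 = r - k := by omega
        rw [e2] at e1
        omega
      have h8 := phi_add r k
      have h9 := two_phi hkr
      rw [card_inside, hI] at h3
      have h10 : r.choose 2 - (inside (I \ A) ∪ inside (I \ A')).card + (r - k - 1) ≤ phi r k := by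
        have h11 : r - k - 1 ≤ phi r k := by
          obtain ⟨t, ht⟩ := Nat.exists_eq_add_of_le hkr1
          have e1 : r - k - 1 = t := by omega
          rw [e1]
          have e2 : 2 * r * k = 2 * (t * k) + 2 * (k * k) + 2 * k := by rw [ht]; ring
          have e3 : t * 1 ≤ t * k := Nat.mul_le_mul_left t hk1
          omega
        omega
      have h11 : ((sec F (inside (I \ A) ∪ inside (I \ A')) G0).card : ℝ)
          ≤ M * 2 ^ (r.choose 2 - (inside (I \ A) ∪ inside (I \ A')).card) := by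
        exact_mod_cast h3
      refine h11.trans ?_
      apply mul_le_mul_of_nonneg_left _ (by positivity)
      rw [le_div_iff₀ (by positivity), ← pow_add]
      exact pow_le_pow_right₀ (by norm_num) h10
    have h3 : (Bad.card : ℝ) ≤ ∑ A' ∈ (powersetCard k I).erase A,
        ((sec F (inside (I \ A) ∪ inside (I \ A')) G0).card : ℝ) := by
      exact_mod_cast (card_le_card h1).trans card_biUnion_le
    refine h3.trans ((sum_le_card_nsmul _ _ _ h2).trans ?_)
    rw [nsmul_eq_mul]
    apply mul_le_mul_of_nonneg_right _ (by positivity)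
    have h4 : ((powersetCard k I).erase A).card ≤ r.choose k := by
      refine (card_le_card (erase_subset _ _)).trans ?_
      rw [card_powersetCard, hI]
    exact_mod_cast h4
  have hGoodF : ∀ G ∈ Good, G ∈ F := by
    intro G hG
    rw [hGood, mem_sdiff] at hG
    exact (mem_sec.1 hG.1).1
  have hGood1 : ∀ G ∈ Good, ∀ A' ⊆ I, (∀ e ∈ inside (I \ A'), G e = G0 e) →
      A' = A ∨ k + 1 ≤ A'.card := by
    intro G hG A' hA' hAe
    rw [hGood, mem_sdiff] at hG
    have huniq : ∀ A'' ⊆ I, A' ⊆ A'' → A''.card = k → A'' = A := by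
      intro A'' hI'' hsub hc
      by_contra hne
      apply hG.2
      rw [hBad, mem_filter]
      refine ⟨hG.1, A'', mem_powersetCard.2 ⟨hI'', hc⟩, hne, mem_sec.2 ⟨(mem_sec.1 hG.1).1, ?_⟩⟩
      intro e he
      exact hAe e (inside_mono (sdiff_subset_sdiff Subset.rfl hsub) he)
    by_contra hcon2
    push Not at hcon2
    obtain ⟨hne, hlt⟩ := hcon2
    have hlt2 : A'.card < k := by
      rcases Nat.lt_or_ge A'.card k with h | h
      · exact h
      · exact absurd (huniq A' hA' Subset.rfl (by omega)) hne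
    obtain ⟨v, hvI, hvA⟩ : ∃ v ∈ I, v ∉ A := by
      by_contra hno
      push Not at hno
      have : I.card ≤ A.card := card_le_card hno
      omega
    obtain ⟨A'', h1, h2, h3⟩ := exists_subsuperset_card_eq
      (s := insert v A') (t := I) (n := k) (insert_subset hvI hA')
      ((card_insert_le _ _).trans (by omega)) (by omega)
    have h4 := huniq A'' h2 ((subset_insert _ _).trans h1) h3
    exact hvA (h4 ▸ h1 (mem_insert_self _ _))
  have hGoodNot : ∀ G ∈ Good, G ∉ cyl (inside I) G0 := by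
    intro G hG hmem
    rcases hGood1 G hG ∅ (empty_subset _) (by rw [sdiff_empty]; exact mem_cyl.1 hmem) with h | h
    · have := hA.2
      rw [← h, card_empty] at this
      omega
    · rw [card_empty] at h; omega
  -- the key dichotomy for `f` in the maximal class and good `G`
  have hdich : ∀ G ∈ Good, ∀ f ∈ sec F (inside I) G0,
      (∃ B ∈ powersetCard k (univ \ I), f ∈ cyl (inside ((I \ A) ∪ B)) G) ∨
      (∃ J : Finset (Fin n), J.card = r ∧ k + 1 ≤ (I \ J).card ∧ f ∈ cyl (inside J) G) := by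
    intro G hG f hf
    have hf2 := mem_sec.1 hf
    have hne : f ≠ G := by
      intro heq
      exact hGoodNot G hG (heq ▸ mem_cyl.2 hf2.2)
    obtain ⟨J, hJ, hJe⟩ := hF f hf2.1 G (hGoodF G hG) hne
    have h1 : ∀ e ∈ inside (I \ (I \ J)), G e = G0 e := by
      intro e he
      rw [sdiff_sdiff_right_self] at he
      rw [← hJe e (inside_mono inter_subset_right he)]
      exact hf2.2 e (inside_mono inter_subset_left he)
    rcases hGood1 G hG (I \ J) sdiff_subset h1 with h | h
    · left
      refine ⟨J \ I, ?_, ?_⟩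
      · rw [mem_powersetCard]
        refine ⟨fun v hv => mem_sdiff.2 ⟨mem_univ _, (mem_sdiff.1 hv).2⟩, ?_⟩
        have e1 := card_sdiff_add_card_inter I J
        have e2 := card_sdiff_add_card_inter J I
        rw [inter_comm] at e2
        rw [h] at e1
        have := hA.2
        omega
      · have h2 : (I \ A) ∪ (J \ I) = J := by
          rw [← h, sdiff_sdiff_right_self]
          ext v
          simp only [inf_eq_inter, mem_union, mem_inter, mem_sdiff]
          tauto
        rw [h2]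
        exact mem_cyl.2 hJe
    · right
      exact ⟨J, hJ, h, mem_cyl.2 hJe⟩
  have hJB : ∀ B ∈ powersetCard k (univ \ I), ((I \ A) ∪ B).card = r := by
    intro B hB
    rw [mem_powersetCard] at hB
    rw [card_union_of_disjoint, hcardIA A hA.1 hA.2, hB.2]
    · omega
    · rw [disjoint_left]
      intro v hv hvB
      exact (mem_sdiff.1 (hB.1 hvB)).2 (mem_sdiff.1 hv).1
  have hIJB : ∀ B ∈ powersetCard k (univ \ I), I \ ((I \ A) ∪ B) = A := by
    intro B hB
    rw [mem_powersetCard] at hB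
    ext v
    simp only [mem_sdiff, mem_union]
    constructor
    · rintro ⟨h1, h2⟩
      by_contra h3
      exact h2 (Or.inl ⟨h1, h3⟩)
    · intro h
      refine ⟨hA.1 h, ?_⟩
      rintro (h1 | h1)
      · exact h1.2 h
      · exact (mem_sdiff.1 (hB.1 h1)).2 (hA.1 h)
  -- constants
  obtain ⟨δ, hδ⟩ : ∃ δ : ℝ, δ = 2 * (2 ^ (2 * m)) ^ (k + 1) / 2 ^ phi r (k + 1) := ⟨_, rfl⟩
  obtain ⟨c, hc⟩ : ∃ c : ℝ, c = (r.choose k : ℝ) := ⟨_, rfl⟩
  obtain ⟨d, hd⟩ : ∃ d : ℝ, d = ((powersetCard k (univ \ I)).card : ℝ) := ⟨_, rfl⟩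
  have hcle : c ≤ 2 ^ (m * k) := by
    have : r.choose k ≤ 2 ^ (m * k) := by
      refine (Nat.choose_le_pow r k).trans ?_
      rw [pow_mul]
      exact Nat.pow_le_pow_left (hrn.trans hn) k
    rw [hc]
    exact_mod_cast this
  have hdle : d ≤ 2 ^ (m * k) := by
    have : (powersetCard k ((univ : Finset (Fin n)) \ I)).card ≤ 2 ^ (m * k) := by
      rw [card_powersetCard]
      refine (Nat.choose_le_pow _ k).trans ?_
      rw [pow_mul]
      apply Nat.pow_le_pow_left
      refine (card_le_univ _).trans ?_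
      rw [Fintype.card_fin]
      exact hn
    rw [hd]
    exact_mod_cast this
  have hc0 : 0 ≤ c := by rw [hc]; positivity
  have hd0 : 0 ≤ d := by rw [hd]; positivity
  have hδ0 : 0 < δ := by rw [hδ]; positivity
  obtain ⟨β, hβ⟩ : ∃ β : ℝ, β = z * δ + d * (z / (2 ^ phi r k * 2 ^ (r - 1))) := ⟨_, rfl⟩
  -- Claim 7
  have hClaim7 : ∀ G1 ∈ Good, ∀ B ∈ powersetCard k (univ \ I),
      β < ((sec F (inside I) G0).filter (fun f => f ∈ cyl (inside ((I \ A) ∪ B)) G1)).card →
      ∀ G2 ∈ Good, ∀ e ∈ inside ((I \ A) ∪ B), G2 e = G1 e := by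
    intro G1 hG1 B hB hβlt G2 hG2
    by_contra hnot
    have hsub : (sec F (inside I) G0).filter (fun f => f ∈ cyl (inside ((I \ A) ∪ B)) G1) ⊆
        (sec F (inside I) G0).filter (fun f => ∃ J : Finset (Fin n), J.card = r ∧
          k + 1 ≤ (I \ J).card ∧ f ∈ cyl (inside J) G2) ∪
        ((powersetCard k (univ \ I)).erase B).biUnion (fun B' =>
          (cyl (inside I) G0 ∩ cyl (inside ((I \ A) ∪ B)) G1) ∩
            cyl (inside ((I \ A) ∪ B')) G2) := by
      intro f hf
      rw [mem_filter] at hf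
      rw [mem_union]
      rcases hdich G2 hG2 f hf.1 with ⟨B', hB', hfB'⟩ | h
      · right
        rw [mem_biUnion]
        refine ⟨B', mem_erase.2 ⟨?_, hB'⟩, ?_⟩
        · rintro rfl
          apply hnot
          intro e he
          rw [← mem_cyl.1 hfB' e he, mem_cyl.1 hf.2 e he]
        · rw [mem_inter, mem_inter]
          exact ⟨⟨mem_cyl.2 (mem_sec.1 hf.1).2, hf.2⟩, hfB'⟩
      · left
        exact mem_filter.2 ⟨hf.1, h⟩
    have h1 : (((sec F (inside I) G0).filter (fun f => f ∈ cyl (inside ((I \ A) ∪ B)) G1)).card : ℝ)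
        ≤ ((sec F (inside I) G0).filter (fun f => ∃ J : Finset (Fin n), J.card = r ∧
          k + 1 ≤ (I \ J).card ∧ f ∈ cyl (inside J) G2)).card +
        ∑ B' ∈ (powersetCard k (univ \ I)).erase B,
          (((cyl (inside I) G0 ∩ cyl (inside ((I \ A) ∪ B)) G1) ∩
            cyl (inside ((I \ A) ∪ B')) G2).card : ℝ) := by
      have := (card_le_card hsub).trans ((card_union_le _ _).trans
        (Nat.add_le_add_left card_biUnion_le _))
      exact_mod_cast this
    have h2 : (((sec F (inside I) G0).filter (fun f => ∃ J : Finset (Fin n), J.card = r ∧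
          k + 1 ≤ (I \ J).card ∧ f ∈ cyl (inside J) G2)).card : ℝ) ≤ z * δ := by
      rw [hz, hδ]
      apply count_far I hI hn (by omega) hr5 G0 G2
      intro f hf
      rw [mem_filter] at hf
      exact ⟨mem_cyl.2 (mem_sec.1 hf.1).2, hf.2⟩
    have h3 : ∀ B' ∈ (powersetCard k (univ \ I)).erase B,
          (((cyl (inside I) G0 ∩ cyl (inside ((I \ A) ∪ B)) G1) ∩
            cyl (inside ((I \ A) ∪ B')) G2).card : ℝ) ≤ z / (2 ^ phi r k * 2 ^ (r - 1)) := by
      intro B' hB'
      rw [mem_erase] at hB'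
      refine (card_inter3_cyl_le _ _ _ _ _ _).trans ?_
      have e1 : (inside I ∪ inside ((I \ A) ∪ B)).card = r.choose 2 + phi r k := by
        rw [card_union_inside hI (hJB B hB), hIJB B hB, hA.2]
      have e2 := card_union_add_card_inter (inside I ∪ inside ((I \ A) ∪ B))
        (inside ((I \ A) ∪ B'))
      have e3 : (inside I ∪ inside ((I \ A) ∪ B)) ∩ inside ((I \ A) ∪ B') ⊆
          inside (((I \ A) ∪ B) ∩ ((I \ A) ∪ B')) := by
        intro e he
        rw [mem_inter, mem_union, mem_inside, mem_inside, mem_inside] at he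
        rw [mem_inside, subset_inter_iff]
        refine ⟨?_, he.2⟩
        rcases he.1 with h | h
        · intro v hv
          rcases mem_union.1 (he.2 hv) with h5 | h5
          · exact mem_union_left _ h5
          · exact absurd (h hv) (mem_sdiff.1 ((mem_powersetCard.1 hB'.2).1 h5)).2
        · exact h
      have e4 : (((I \ A) ∪ B) ∩ ((I \ A) ∪ B')).card ≤ r - 1 := by
        have h6 : (((I \ A) ∪ B) ∩ ((I \ A) ∪ B')).card < ((I \ A) ∪ B).card := by
          apply card_lt_card
          refine ⟨inter_subset_left, ?_⟩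
          intro hs
          apply hB'.1
          have h7 : B ⊆ B' := by
            intro v hv
            rcases mem_union.1 ((mem_inter.1 (hs (mem_union_right _ hv))).2) with h8 | h8
            · exact absurd (mem_sdiff.1 h8).1 (mem_sdiff.1 ((mem_powersetCard.1 hB).1 hv)).2
            · exact h8
          exact (eq_of_subset_of_card_le h7 (by
            rw [(mem_powersetCard.1 hB).2, (mem_powersetCard.1 hB'.2).2])).symm
        rw [hJB B hB] at h6
        omega
      have e5 := (card_le_card e3).trans (le_of_eq (card_inside _))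
      have e6 := Nat.choose_le_choose 2 e4
      have e7 : r.choose 2 = (r - 1).choose 2 + (r - 1) := by
        have e8 : (r - 1 + 1).choose 2 = (r - 1).choose 1 + (r - 1).choose 2 :=
          Nat.choose_succ_succ' _ 1
        rw [Nat.choose_one_right] at e8
        have e9 : r - 1 + 1 = r := by omega
        rw [e9] at e8
        omega
      have e8 : (inside ((I \ A) ∪ B')).card = r.choose 2 := by
        rw [card_inside, hJB B' hB'.2]
      have e9 : r.choose 2 + (phi r k + (r - 1)) ≤
          (inside I ∪ inside ((I \ A) ∪ B) ∪ inside ((I \ A) ∪ B')).card := by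
        omega
      rw [hz, div_div]
      apply div_le_div_of_nonneg_left (by positivity) (by positivity)
      rw [← pow_add, ← pow_add]
      exact pow_le_pow_right₀ (by norm_num) e9
    have h4 : ∑ B' ∈ (powersetCard k (univ \ I)).erase B,
          (((cyl (inside I) G0 ∩ cyl (inside ((I \ A) ∪ B)) G1) ∩
            cyl (inside ((I \ A) ∪ B')) G2).card : ℝ) ≤ d * (z / (2 ^ phi r k * 2 ^ (r - 1))) := by
      refine (sum_le_card_nsmul _ _ _ h3).trans ?_
      rw [nsmul_eq_mul]
      apply mul_le_mul_of_nonneg_right _ (by positivity)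
      rw [hd]
      exact_mod_cast card_le_card (erase_subset _ _)
    linarith
  -- final numerics
  have hphik : phi r (k + 1) = phi r k + (r - 1 - k) := phi_succ hkr1
  have hnatA := natA hkm hr
  have hz1 : z < c * (M * 2 ^ phi r k) := by
    refine hzF.trans_le ?_
    rw [hc]
    exact_mod_cast hii
  have hGoodcard : (Good.card : ℝ) = ((sec F (inside (I \ A)) G0)).card - Bad.card := by
    have hsub : Bad ⊆ sec F (inside (I \ A)) G0 := by
      rw [hBad]; exact filter_subset _ _
    rw [hGood, card_sdiff_of_subset hsub, Nat.cast_sub (card_le_card hsub)]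
  have hMδ : (M : ℝ) ≤ z * (2 * (2 ^ (2 * m)) ^ k / 2 ^ phi r k) := hClaim1 k le_rfl (by omega)
  have hcFA : z < c * ((sec F (inside (I \ A)) G0)).card := by
    refine hzF.trans_le ?_
    rw [hc]
    exact_mod_cast hAmax
  have hphik2 := natB hk1 hkr hkm hr
  have hGoodbig : z / 2 < c * Good.card := by
    have h1 : c * Bad.card ≤ z / 2 :=
      realBad hzpos hc0 hcle (by omega) hMδ (by rw [hc]; exact hBadle)
    rw [hGoodcard, mul_sub]
    linarith
  have hGoodne : Good.Nonempty := by
    rw [← card_pos]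
    by_contra h0
    have h1 : Good.card = 0 := by omega
    rw [h1] at hGoodbig
    simp only [Nat.cast_zero, mul_zero] at hGoodbig
    linarith
  obtain ⟨G1, hG1⟩ := hGoodne
  by_cases hcase : ∃ B ∈ powersetCard k (univ \ I),
      β < ((sec F (inside I) G0).filter (fun f => f ∈ cyl (inside ((I \ A) ∪ B)) G1)).card
  · obtain ⟨B, hB, hBβ⟩ := hcase
    have h1 := hClaim7 G1 hG1 B hB hBβ
    have h2 : Good ⊆ sec F (inside ((I \ A) ∪ B)) G1 := by
      intro G2 hG2
      exact mem_sec.2 ⟨hGoodF G2 hG2, h1 G2 hG2⟩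
    have h3 : (Good.card : ℝ) ≤ M := by
      exact_mod_cast (card_le_card h2).trans (hMax G1 (hGoodF G1 hG1) _ (hJB B hB))
    have h4 : c * Good.card ≤ z / 2 := realGood hzpos (by positivity) hcle hphik2 hMδ h3
    linarith
  · push Not at hcase
    have hsub : sec F (inside I) G0 ⊆
        ((powersetCard k (univ \ I)).biUnion (fun B =>
          (sec F (inside I) G0).filter (fun f => f ∈ cyl (inside ((I \ A) ∪ B)) G1))) ∪
        (sec F (inside I) G0).filter (fun f => ∃ J : Finset (Fin n), J.card = r ∧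
          k + 1 ≤ (I \ J).card ∧ f ∈ cyl (inside J) G1) := by
      intro f hf
      rw [mem_union]
      rcases hdich G1 hG1 f hf with ⟨B, hB, hfB⟩ | h
      · left
        rw [mem_biUnion]
        exact ⟨B, hB, mem_filter.2 ⟨hf, hfB⟩⟩
      · right
        exact mem_filter.2 ⟨hf, h⟩
    have h1 : (M : ℝ) ≤ ∑ B ∈ powersetCard k (univ \ I),
          (((sec F (inside I) G0).filter (fun f => f ∈ cyl (inside ((I \ A) ∪ B)) G1)).card : ℝ) +
        ((sec F (inside I) G0).filter (fun f => ∃ J : Finset (Fin n), J.card = r ∧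
          k + 1 ≤ (I \ J).card ∧ f ∈ cyl (inside J) G1)).card := by
      have := (card_le_card hsub).trans ((card_union_le _ _).trans
        (Nat.add_le_add_right card_biUnion_le _))
      rw [hM]
      exact_mod_cast this
    have h2 : (((sec F (inside I) G0).filter (fun f => ∃ J : Finset (Fin n), J.card = r ∧
          k + 1 ≤ (I \ J).card ∧ f ∈ cyl (inside J) G1)).card : ℝ) ≤ z * δ := by
      rw [hz, hδ]
      apply count_far I hI hn (by omega) hr5 G0 G1
      intro f hf
      rw [mem_filter] at hf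
      exact ⟨mem_cyl.2 (mem_sec.1 hf.1).2, hf.2⟩
    have h3 : ∑ B ∈ powersetCard k (univ \ I),
          (((sec F (inside I) G0).filter (fun f => f ∈ cyl (inside ((I \ A) ∪ B)) G1)).card : ℝ)
          ≤ d * β := by
      refine (sum_le_card_nsmul _ _ _ hcase).trans ?_
      rw [nsmul_eq_mul, hd]
    have h4 : (M : ℝ) ≤ d * β + z * δ := by linarith
    -- contradiction
    have h5 : c * (M * 2 ^ phi r k) ≤ z :=
      realFinal hzpos hc0 hd0 hcle hdle hnatA hphik (by rw [hβ, hδ] at h4; exact h4)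
    linarith


/-- indicator of a graph on pairs -/
noncomputable def toFn (G : SimpleGraph (Fin n)) : Ed n → Bool :=
  fun e => decide (∃ u v, e.1 = {u, v} ∧ G.Adj u v)

lemma toFn_pair (G : SimpleGraph (Fin n)) {u v : Fin n} (h : u ≠ v) :
    toFn G ⟨{u, v}, card_pair h⟩ = true ↔ G.Adj u v := by
  unfold toFn
  rw [decide_eq_true_iff]
  constructor
  · rintro ⟨a, b, hab, hadj⟩
    simp only at hab
    have ha : a = u ∨ a = v := by
      have : a ∈ ({u, v} : Finset (Fin n)) := by rw [hab]; simp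
      simpa using this
    have hb : b = u ∨ b = v := by
      have : b ∈ ({u, v} : Finset (Fin n)) := by rw [hab]; simp
      simpa using this
    have hne := hadj.ne
    rcases ha with rfl | rfl <;> rcases hb with rfl | rfl
    · exact absurd rfl hne
    · exact hadj
    · exact hadj.symm
    · exact absurd rfl hne
  · intro hadj
    exact ⟨u, v, rfl, hadj⟩

lemma toFn_injective : Function.Injective (toFn (n := n)) := by
  intro G H h
  ext u v
  by_cases huv : u = v
  · subst huv
    simp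
  · rw [← toFn_pair G huv, ← toFn_pair H huv, h]

/-- the graph of a function on pairs -/
def ofFn (f : Ed n → Bool) : SimpleGraph (Fin n) where
  Adj u v := ∃ h : u ≠ v, f ⟨{u, v}, card_pair h⟩ = true
  symm := ⟨by
    rintro u v ⟨h, hf⟩
    refine ⟨h.symm, ?_⟩
    have e : (⟨{v, u}, card_pair h.symm⟩ : Ed n) = ⟨{u, v}, card_pair h⟩ :=
      Subtype.ext (pair_comm v u)
    rw [e]
    exact hf⟩
  loopless := ⟨fun u hu => hu.1 rfl⟩

lemma ofFn_injective : Function.Injective (ofFn (n := n)) := by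
  intro f g h
  funext e
  obtain ⟨e, he⟩ := e
  obtain ⟨u, v, huv, rfl⟩ := card_eq_two.1 he
  have h1 : (ofFn f).Adj u v ↔ (ofFn g).Adj u v := by rw [h]
  have h2 : f ⟨{u, v}, he⟩ = true ↔ g ⟨{u, v}, he⟩ = true := by
    constructor
    · intro hf
      exact (h1.1 ⟨huv, hf⟩).2
    · intro hg
      exact (h1.2 ⟨huv, hg⟩).2
  exact Bool.eq_iff_iff.2 h2

/-- **Main theorem.** For `r ≤ n ≤ 2^m` and `r ≥ 5 m²` (so `n ≤ 2^√(r/5)`), a family of graphs on
`n` labelled vertices in which any two distinct members have a symmetric difference with an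
independent set of size `r` has at most `2^(C(n,2) - C(r,2))` members, and this is attained. -/
theorem result : ∀ m r n : ℕ, 3 < r → 5 * m ^ 2 ≤ r → r ≤ n → n ≤ 2 ^ m →
    (∀ F : Finset (SimpleGraph (Fin n)),
      (∀ G ∈ F, ∀ H ∈ F, G ≠ H → ∃ s : Finset (Fin n), (symmDiff G H).IsNIndepSet r s) →
      F.card ≤ 2 ^ (n.choose 2 - r.choose 2)) ∧
    (∃ F : Finset (SimpleGraph (Fin n)),
      (∀ G ∈ F, ∀ H ∈ F, G ≠ H → ∃ s : Finset (Fin n), (symmDiff G H).IsNIndepSet r s) ∧
      F.card = 2 ^ (n.choose 2 - r.choose 2)) := by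
  intro m r n hr3 hmr hrn hn
  have hm4 : 4 ≤ m := by
    by_contra hlt
    push Not at hlt
    have h1 := hmr
    have h2 := hrn.trans hn
    interval_cases m <;> omega
  have hr : 4 * m ^ 2 + 3 * m + 4 ≤ r := by
    have : 3 * m + 4 ≤ m ^ 2 := by nlinarith
    omega
  refine ⟨?_, ?_⟩
  · intro F hF
    rw [← card_image_of_injective F toFn_injective]
    apply core hrn hn hr
    intro f hf g hg hfg
    rw [mem_image] at hf hg
    obtain ⟨G, hG, rfl⟩ := hf
    obtain ⟨H, hH, rfl⟩ := hg
    have hne : G ≠ H := fun h => hfg (by rw [h])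
    obtain ⟨s, hs⟩ := hF G hG H hH hne
    rw [SimpleGraph.isNIndepSet_iff] at hs
    refine ⟨s, hs.2, ?_⟩
    rintro ⟨e, he⟩ hes
    rw [mem_inside] at hes
    obtain ⟨u, v, huv, rfl⟩ := card_eq_two.1 he
    have hu : u ∈ s := hes (by simp)
    have hv : v ∈ s := hes (by simp)
    have h1 := hs.1 (mem_coe.2 hu) (mem_coe.2 hv) huv
    have h2 : G.Adj u v ↔ H.Adj u v := by
      simp only [symmDiff, SimpleGraph.sup_adj, SimpleGraph.sdiff_adj, not_or, not_and,
        not_not] at h1
      exact ⟨h1.1, h1.2⟩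
    have h3 := toFn_pair G huv
    have h4 := toFn_pair H huv
    exact Bool.eq_iff_iff.2 (h3.trans (h2.trans h4.symm))
  · obtain ⟨S, _, hS⟩ := exists_subset_card_eq (s := (univ : Finset (Fin n))) (n := r)
      (by rw [card_univ, Fintype.card_fin]; exact hrn)
    refine ⟨(cyl (inside S) (fun _ => false)).image ofFn, ?_, ?_⟩
    · intro G hG H hH _
      rw [mem_image] at hG hH
      obtain ⟨f, hf, rfl⟩ := hG
      obtain ⟨g, hg, rfl⟩ := hH
      refine ⟨S, ?_⟩
      rw [SimpleGraph.isNIndepSet_iff]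
      refine ⟨?_, hS⟩
      intro u hu v hv huv
      have hin : (⟨{u, v}, card_pair huv⟩ : Ed n) ∈ inside S := by
        rw [mem_inside]
        intro w hw
        rcases mem_insert.1 hw with h | h
        · rw [h]; exact mem_coe.1 hu
        · rw [mem_singleton.1 h]; exact mem_coe.1 hv
      have h1 : ¬ (ofFn f).Adj u v := by
        rintro ⟨h, hf2⟩
        rw [mem_cyl.1 hf _ hin] at hf2
        exact Bool.false_ne_true hf2
      have h2 : ¬ (ofFn g).Adj u v := by
        rintro ⟨h, hf2⟩
        rw [mem_cyl.1 hg _ hin] at hf2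
        exact Bool.false_ne_true hf2
      simp only [symmDiff, SimpleGraph.sup_adj, SimpleGraph.sdiff_adj, h1, h2, false_and,
        or_self, not_false_eq_true]
    · rw [card_image_of_injective _ ofFn_injective, card_cyl, card_Ed, card_inside, hS]

end Pool.Agent.Results.MP_64e56f_co.LargeR
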